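import Pool.Agent.K7.H39.PC.Open

set_option autoImplicit false

/-!
# Closed chains with infinite slopes

The properties of a stage that are needed for closed chains are listed in the structure `HC`
(for one direction of the order).  The flags `su` and `sw` say that the slope in column `0`, or in
column `2`, is finite.
-/

namespace Pool.Agent.K7.H39.PC

variable {Ω : Type*} [LinearOrder Ω]

/-- The properties of a stage of a closed chain. -/
structure HC (su sw : Prop) (w z z' u u' : Ω ≃o Ω) : Prop where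
  hu' : ∀ v, u' v = w (u v)
  neg : ∀ t, INeg u (z' t) t → INeg u' (z t) t ∧ w t ≤ t ∧ (sw → w t < t)
  a1 : ∀ t, z t ≤ t → t < u (z t) → IPos u' (z t) t
  b1 : ∀ t, z t ≤ t → t < z' t → u (z t) ≤ t → INeg u' (z t) t ∨ IPos u' (z t) t
  up0 : ∀ t, t < z t → t < z' t → z' t ≤ z t → t ≤ u (z t) → INeg u' (z t) t ∨
    (∀ v, z' t ≤ v → v ≤ z t → v < u' v) ∨
    (z' t = z t ∧ u' (z t) = u (z t) ∧ (su → u (z t) = z t) ∧ (sw → u (z t) = t))
  up1 : ∀ t m, t < m → m ≤ z t → m ≤ z' t → t ≤ u (z t) →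
    (∀ v, m ≤ v → v ≤ z' t → v < u v) → INeg u' (z t) t ∨
    ((∀ v, m ≤ v → v ≤ z t → v < u' v) ∧ u m ≤ w (u m) ∧ (sw → u m < w (u m)))

theorem Stage.hc {x w R r o g z z' u u' : Ω ≃o Ω} (S : Stage x w R r o g z z' u u') :
    HC True True w z z' u u' where
  hu' := S.hu'
  neg := fun t h => ⟨(S.neg h).2, (S.neg h).1.le, fun _ => (S.neg h).1⟩
  a1 := fun _ h1 h2 => S.lemA h1 h2
  b1 := fun _ h1 h2 h3 => S.lemB h1 h2 h3
  up0 := by
    intro t h1 h2 h3 h4
    rcases h4.eq_or_lt with h4 | h4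
    · rcases S.lemC h1 h4.symm with h | h
      · exact Or.inl h
      · exact absurd h.1 (not_lt.mpr h3)
    · exact Or.inr (Or.inl (S.lemD h2 h3 le_rfl h4 (Or.inl h3) (Or.inr (Or.inl rfl))).2.2)
  up1 := by
    intro t m h1 h2 h3 h4 h5
    rcases h4.eq_or_lt with h4 | h4
    · rcases S.lemC (h1.trans_le h2) h4.symm with h | h
      · exact Or.inl h
      · exact absurd (h5 m le_rfl h3) (not_lt.mpr (h.2 m h1.le h2).le)
    · right
      obtain ⟨p1, p2, p3⟩ := S.lemD h1 h2 h3 h4 (Or.inr h5) (Or.inr (Or.inr h5))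
      have p4 : u m < w (u m) :=
        p2 _ (h1.trans (p1 m le_rfl h2)).le (u.le_iff_le.mpr h2)
      exact ⟨p3, p4.le, fun _ => p4⟩

theorem StageU.hc {x z z' u w : Ω ≃o Ω} (S : StageU x z z' u) (hw : ∀ v, w v = v) :
    HC True False w z z' u u where
  hu' := fun v => (hw _).symm
  neg := fun t h => ⟨S.half.neg t h, (hw t).le, fun h => h.elim⟩
  a1 := S.half.a1
  b1 := S.half.b1
  up0 := by
    intro t _ _ h3 _
    right
    rcases h3.eq_or_lt with h3 | h3
    · right
      refine ⟨h3, rfl, fun _ => S.fix _ ?_, fun h => h.elim⟩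
      rw [← S.hz']; exact h3
    · left
      intro v v1 v2
      rw [S.hz'] at h3 v1
      exact S.up v (dn_seg x h3 v1 v2)
  up1 := by
    intro t m _ _ _ _ h5
    right
    refine ⟨?_, (hw _).ge, fun h => h.elim⟩
    intro v v1 v2
    rcases le_or_gt v (z' t) with v3 | v3
    · exact h5 v v1 v3
    · have h6 : z' t < z t := v3.trans_le v2
      rw [S.hz'] at h6 v3
      exact S.up v (dn_seg x h6 v3.le v2)

theorem StageW.hc {w R o g z z' u u' : Ω ≃o Ω} (S : StageW w R o g z z' u u') :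
    HC False True w z z' u u' where
  hu' := S.hu'
  neg := by
    intro t h
    have hw : w t < t := by
      have ha := h.1
      rw [S.hz', S.hu] at ha
      by_contra hw
      rw [not_lt] at hw
      have h1 : t ≤ w (o t) := by
        rw [S.wo]; exact hw.trans (S.fw.up _ (w.le_iff_le.mpr hw))
      have h2 : w (o t) ≤ w (w (o t)) := by
        apply w.le_iff_le.mpr
        rw [S.wo]; exact o.le_iff_le.mpr hw
      exact absurd ha (not_lt.mpr (h1.trans (S.gup _ h2).1))
    exact ⟨S.half.neg t h, hw.le, fun _ => hw⟩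
  a1 := S.half.a1
  b1 := S.half.b1
  up0 := by
    intro t h1 _ h3 h4
    have k1 : w (o t) ≤ o t := by
      rw [← R.le_iff_le, ← S.hz', ← S.hz]; exact h3
    have k2 : w t ≤ t := by
      rw [← o.le_iff_le, ← S.wo]; exact k1
    have k3 : g (o t) ≤ t := (S.gdn _ k1).2.trans (S.fw.down t k2)
    have k4 : u (z t) = t := le_antisymm (by rw [S.hz, S.hu]; exact k3) h4
    rcases k2.eq_or_lt with k5 | k5
    · right; right
      refine ⟨?_, ?_, fun h => h.elim, fun _ => k4⟩
      · rw [S.hz', S.wo, k5, ← S.hz]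
      · rw [S.hu', k4]; exact k5
    · left
      have k6 : u' (z t) < t := by rw [S.hu', k4]; exact k5
      refine ⟨k6, ?_⟩
      rintro v (⟨v1, v2⟩ | ⟨v1, v2⟩)
      · exact ((u'.le_iff_le.mpr v2).trans_lt k6).trans_le v1
      · exact absurd (v1.trans v2) (not_le.mpr h1)
  up1 := by
    intro t m h1 h2 h3 h4 h5
    have hgq : u (z t) = g (o t) := by rw [S.hz, S.hu]
    have hmu : m < u m := h5 m le_rfl h3
    have h6 : t < u (z t) := h1.trans (hmu.trans_le (u.le_iff_le.mpr h2))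
    right
    have k1 : t < w t := by
      by_contra k1
      rw [not_lt] at k1
      have k2 : w (o t) ≤ o t := by rw [S.wo]; exact o.le_iff_le.mpr k1
      have k3 : g (o t) ≤ t := (S.gdn _ k2).2.trans (S.fw.down t k1)
      rw [hgq] at h6
      exact absurd h6 (not_lt.mpr k3)
    have k2 : o t < w (o t) := by rw [S.wo]; exact o.lt_iff_lt.mpr k1
    have hseg : ∀ v, t ≤ v → v ≤ u (z t) → v < w v := by
      intro v v1 v2
      rcases le_or_gt v (o t) with v3 | v3
      · exact seg_up S.fw k1 v1 v3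
      · rw [hgq] at v2
        exact up_seg w k2 v3.le (v2.trans (S.gup _ k2.le).2)
    have hz : z t < z' t := by
      rw [S.hz, S.hz', R.lt_iff_lt]; exact k2
    have p4 : u m < w (u m) := hseg _ (h1.trans hmu).le (u.le_iff_le.mpr h2)
    refine ⟨?_, p4.le, fun _ => p4⟩
    intro v v1 v2
    have e1 := h5 v v1 (v2.trans hz.le)
    rw [S.hu']
    exact e1.trans (hseg _ ((h1.trans_le v1).trans e1).le (u.le_iff_le.mpr v2))

theorem HC.refl {w z u : Ω ≃o Ω} (hw : ∀ v, w v = v) : HC False False w z z u u where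
  hu' := fun _ => (hw _).symm
  neg := fun _ h => ⟨h, (hw _).le, fun h => h.elim⟩
  a1 := fun _ h1 h2 => ipos_of h1 h2
  b1 := fun _ h1 h2 _ => absurd h2 (not_lt.mpr h1)
  up0 := fun _ _ _ _ _ => Or.inr (Or.inr ⟨rfl, rfl, fun h => h.elim, fun h => h.elim⟩)
  up1 := fun _ _ _ _ _ _ h5 => Or.inr ⟨h5, (hw _).ge, fun h => h.elim⟩

variable {n : ℕ}

/-- A closed chain. -/
def CC (su sw : ZMod n → Prop) (w z u : ZMod n → Ω ≃o Ω) : Prop :=
  ∀ j, HC (su j) (sw j) (w j) (z j) (z (j + 1)) (u j) (u (j - 1)) ∧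
    HC (Ω := Ωᵒᵈ) (su j) (sw j) (w j).dual (z j).dual (z (j + 1)).dual (u j).dual
      (u (j - 1)).dual

theorem CC.dual {su sw : ZMod n → Prop} {w z u : ZMod n → Ω ≃o Ω} (h : CC su sw w z u) :
    CC (Ω := Ωᵒᵈ) su sw (fun j => (w j).dual) (fun j => (z j).dual) (fun j => (u j).dual) :=
  fun j => ⟨(h j).2, (h j).1⟩

theorem no_decr' [NeZero n] (g : ZMod n → Ω) (h : ∀ j, g j ≤ g (j - 1)) {k : ZMod n}
    (hk : g k < g (k - 1)) : False := by
  have key : ∀ j, g (k - 1) ≤ g j := by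
    refine back (P := fun j => g (k - 1) ≤ g j) ?_ (i := k - 1) le_rfl
    intro j hj
    have := h (j + 1)
    rw [add_sub_cancel_right] at this
    exact hj.trans this
  exact absurd hk (not_lt.mpr (key k))

section chain
variable [NeZero n] {su sw : ZMod n → Prop} {w z u : ZMod n → Ω ≃o Ω}

theorem CC.no_neg (h : CC su sw w z u) (hsw : ∃ j, sw j) {i : ZMod n} {t : Ω}
    (hi : INeg (u (i - 1)) (z i t) t) : False := by
  have step : ∀ j, INeg (u (j + 1 - 1)) (z (j + 1) t) t →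
      INeg (u (j - 1)) (z j t) t ∧ w j t ≤ t ∧ (sw j → w j t < t) := by
    intro j hj
    rw [add_sub_cancel_right] at hj
    exact (h j).1.neg t hj
  have key : ∀ j, INeg (u (j - 1)) (z j t) t :=
    back (P := fun j => INeg (u (j - 1)) (z j t) t) (fun j hj => (step j hj).1) hi
  obtain ⟨k, hk⟩ := hsw
  refine no_decr' (fun j => (u j).symm t) ?_ (k := k) ?_
  · intro j
    show (u j).symm t ≤ (u (j - 1)).symm t
    rw [← (u (j - 1)).le_iff_le, OrderIso.apply_symm_apply, (h j).1.hu',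
      OrderIso.apply_symm_apply]
    exact (step j (key (j + 1))).2.1
  · show (u k).symm t < (u (k - 1)).symm t
    rw [← (u (k - 1)).lt_iff_lt, OrderIso.apply_symm_apply, (h k).1.hu',
      OrderIso.apply_symm_apply]
    exact (step k (key (k + 1))).2.2 hk

theorem CC.no_pos (h : CC su sw w z u) (hsw : ∃ j, sw j) {i : ZMod n} {t : Ω}
    (hi : IPos (u (i - 1)) (z i t) t) : False :=
  CC.no_neg (Ω := Ωᵒᵈ) h.dual hsw (i := i) (t := t) hi.dual

theorem CC.A1 (h : CC su sw w z u) (hsw : ∃ j, sw j) (j : ZMod n) {t : Ω} (hz : z j t ≤ t) :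
    u j (z j t) ≤ t := by
  by_contra hc
  rw [not_le] at hc
  exact h.no_pos hsw ((h j).1.a1 t hz hc)

theorem CC.A2 (h : CC su sw w z u) (hsw : ∃ j, sw j) (j : ZMod n) {t : Ω} (hz : t ≤ z j t) :
    t ≤ u j (z j t) := CC.A1 (Ω := Ωᵒᵈ) h.dual hsw j (t := t) hz

theorem CC.B1 (h : CC su sw w z u) (hsw : ∃ j, sw j) (j : ZMod n) {t : Ω} (hz : z j t ≤ t) :
    z (j + 1) t ≤ t := by
  by_contra hc
  rw [not_le] at hc
  rcases (h j).1.b1 t hz hc (h.A1 hsw j hz) with h1 | h1
  · exact h.no_neg hsw h1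
  · exact h.no_pos hsw h1

theorem CC.B2 (h : CC su sw w z u) (hsw : ∃ j, sw j) (j : ZMod n) {t : Ω} (hz : t ≤ z j t) :
    t ≤ z (j + 1) t := CC.B1 (Ω := Ωᵒᵈ) h.dual hsw j (t := t) hz

/-- All `z j t > t` is impossible. -/
theorem CC.no_up (h : CC su sw w z u) (hsu : ∃ j, su j) (hsw : ∃ j, sw j) {t : Ω}
    (hz : ∀ j, t < z j t) : False := by
  have hy : ∀ j, t ≤ u j (z j t) := fun j => h.A2 hsw j (hz j).le
  obtain ⟨i0, hi0⟩ := Finite.exists_min (fun j => z j t)
  set m := z i0 t with hm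
  have htm : t < m := hz i0
  have start : ∃ i, ∀ v, m ≤ v → v ≤ z i t → v < u (i - 1) v := by
    by_contra hno
    have step : ∀ j, z (j + 1) t = m → z j t = m ∧ u (j - 1) m = u j m ∧
        (su j → u j m = m) ∧ (sw j → u j m = t) := by
      intro j hj
      have h1 : z (j + 1) t ≤ z j t := by rw [hj]; exact hi0 j
      rcases (h j).1.up0 t (hz j) (hz (j + 1)) h1 (hy j) with h2 | h2 | h2
      · exact (h.no_neg hsw h2).elim
      · rw [hj] at h2
        exact (hno ⟨j, h2⟩).elim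
      · obtain ⟨e1, e2, e3, e4⟩ := h2
        rw [hj] at e1
        rw [← e1] at e2 e3 e4
        exact ⟨e1.symm, e2, e3, e4⟩
    have hall : ∀ j, z j t = m :=
      back (P := fun j => z j t = m) (fun j hj => (step j hj).1) hm.symm
    have heq : ∀ j, u j m = u 0 m := by
      refine back (P := fun j => u j m = u 0 m) ?_ (i := 0) rfl
      intro j hj
      have := (step (j + 1) (hall _)).2.1
      rw [add_sub_cancel_right] at this
      rw [this]; exact hj
    obtain ⟨a, ha⟩ := hsu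
    obtain ⟨b, hb⟩ := hsw
    have e1 := (step a (hall _)).2.2.1 ha
    have e2 := (step b (hall _)).2.2.2 hb
    rw [heq] at e1 e2
    exact absurd htm (not_lt.mpr (e1.symm.trans e2).le)
  obtain ⟨i, hi⟩ := start
  have step : ∀ j, (∀ v, m ≤ v → v ≤ z (j + 1) t → v < u (j + 1 - 1) v) →
      (∀ v, m ≤ v → v ≤ z j t → v < u (j - 1) v) ∧ u j m ≤ w j (u j m) ∧
        (sw j → u j m < w j (u j m)) := by
    intro j hj
    rw [add_sub_cancel_right] at hj
    rcases (h j).1.up1 t m htm (hi0 j) (hi0 (j + 1)) (hy j) hj with h1 | h1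
    · exact (h.no_neg hsw h1).elim
    · exact h1
  have key : ∀ j, ∀ v, m ≤ v → v ≤ z j t → v < u (j - 1) v :=
    back (P := fun j => ∀ v, m ≤ v → v ≤ z j t → v < u (j - 1) v)
      (fun j hj => (step j hj).1) hi
  obtain ⟨k, hk⟩ := hsw
  refine no_decr' (fun j => u j m) ?_ (k := k) ?_
  · intro j
    show u j m ≤ u (j - 1) m
    rw [(h j).1.hu']
    exact (step j (key (j + 1))).2.1
  · show u k m < u (k - 1) m
    rw [(h k).1.hu']
    exact (step k (key (k + 1))).2.2 hk

theorem CC.no_down (h : CC su sw w z u) (hsu : ∃ j, su j) (hsw : ∃ j, sw j) {t : Ω}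
    (hz : ∀ j, z j t < t) : False :=
  CC.no_up (Ω := Ωᵒᵈ) h.dual hsu hsw (t := t) hz

theorem CC.z_fix (h : CC su sw w z u) (hsu : ∃ j, su j) (hsw : ∃ j, sw j) (j : ZMod n) (t : Ω) :
    z j t = t := by
  by_contra hc
  rcases lt_or_gt_of_ne hc with h1 | h1
  · have h2 : ∀ i, z i t ≤ t := forw (P := fun i => z i t ≤ t) (fun i hi => h.B1 hsw i hi) h1.le
    apply h.no_down hsu hsw (t := t)
    intro i
    refine lt_of_le_of_ne (h2 i) ?_
    intro h3
    have h4 : ∀ i, t ≤ z i t := forw (P := fun i => t ≤ z i t) (fun i hi => h.B2 hsw i hi) h3.ge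
    exact absurd h1 (not_lt.mpr (h4 j))
  · have h2 : ∀ i, t ≤ z i t := forw (P := fun i => t ≤ z i t) (fun i hi => h.B2 hsw i hi) h1.le
    apply h.no_up hsu hsw (t := t)
    intro i
    refine lt_of_le_of_ne (h2 i) ?_
    intro h3
    have h4 : ∀ i, z i t ≤ t := forw (P := fun i => z i t ≤ t) (fun i hi => h.B1 hsw i hi) h3.ge
    exact absurd h1 (not_lt.mpr (h4 j))

theorem CC.u_fix (h : CC su sw w z u) (hsu : ∃ j, su j) (hsw : ∃ j, sw j) (i : ZMod n) (t : Ω) :
    u i t = t := by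
  have h0 := h.z_fix hsu hsw i t
  have h1 := h.A1 hsw i h0.le
  have h2 := h.A2 hsw i h0.ge
  rw [h0] at h1 h2
  exact le_antisymm h1 h2

end chain

section group
variable {H : Type*} [Group H] [LinearOrder H] (hinv : ∀ a b c : H, a ≤ b ↔ c * a ≤ c * b)

/-- One of the four types, with flags. -/
def Adm {H : Type*} [Group H] (su sw : Prop) (x w R o g : H) : Prop :=
  (TypeA x w R o g ∧ su ∧ sw) ∨ (TypeU x w R g ∧ su ∧ ¬ sw) ∨ (TypeW x w o g ∧ ¬ su ∧ sw) ∨
    ((x = 1 ∧ w = 1 ∧ g = 1) ∧ ¬ su ∧ ¬ sw)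

theorem hc_of_adm {su sw : Prop} {x w R o g : H} (T : Adm su sw x w R o g) :
    HC su sw (lm hinv w) (lm hinv (R * o)) (lm hinv (x * (R * o) * w)) (lm hinv (g * R⁻¹))
        (lm hinv (w * (g * R⁻¹))) ∧
    HC (Ω := Hᵒᵈ) su sw (lm hinv w).dual (lm hinv (R * o)).dual (lm hinv (x * (R * o) * w)).dual
        (lm hinv (g * R⁻¹)).dual (lm hinv (w * (g * R⁻¹))).dual := by
  rcases T with ⟨T, h1, h2⟩ | ⟨T, h1, h2⟩ | ⟨T, h1, h2⟩ | ⟨T, h1, h2⟩
  · rw [eq_true h1, eq_true h2]
    have S := stage_of_typeA hinv T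
    exact ⟨S.hc, S.dual.hc⟩
  · rw [eq_true h1, eq_false h2]
    have S := stage_of_typeU hinv (o := o) T
    have hw : ∀ v, lm hinv w v = v := fun v => by rw [lm_apply, T.1, one_mul]
    have e : w * (g * R⁻¹) = g * R⁻¹ := by rw [T.1, one_mul]
    rw [e]
    exact ⟨S.hc hw, S.dual.hc hw⟩
  · rw [eq_false h1, eq_true h2]
    have S := stage_of_typeW hinv (R := R) T
    exact ⟨S.hc, S.dual.hc⟩
  · rw [eq_false h1, eq_false h2]
    obtain ⟨rfl, rfl, rfl⟩ := T
    have hw : ∀ v, lm hinv (1 : H) v = v := fun v => by rw [lm_apply, one_mul]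
    rw [one_mul, mul_one, one_mul, one_mul]
    exact ⟨HC.refl hw, HC.refl (Ω := Hᵒᵈ) hw⟩

omit [LinearOrder H] in
theorem Adm.admissible {su sw : Prop} {x w R o g : H} (T : Adm su sw x w R o g) :
    Admissible x w R o g := by
  rcases T with T | T | T | T
  · exact Or.inl T.1
  · exact Or.inr (Or.inl T.1)
  · exact Or.inr (Or.inr (Or.inl T.1))
  · exact Or.inr (Or.inr (Or.inr T.1))

include hinv in
/-- The remaining elements are trivial, too. -/
theorem rest_trivial {x w R o g : H} (T : Admissible x w R o g) (hx : x = 1) (hw : w = 1)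
    (e1 : R * o = 1) (e2 : g * R⁻¹ = 1) : R = 1 ∧ o = 1 ∧ g = 1 := by
  rcases T with T | T | T | T
  · obtain ⟨-, ⟨a, b, hb, -, h⟩, -⟩ := T
    have hR : R = 1 := eq_one_of_pow hinv hb (by rw [← h, hx, one_pow])
    rw [hR, one_mul] at e1
    rw [hR, inv_one, mul_one] at e2
    exact ⟨hR, e1, e2⟩
  · obtain ⟨-, -, -, a, b, a', b', hb, -, h, -⟩ := T
    have hR : R = 1 := eq_one_of_pow hinv hb (by rw [← h, hx, one_pow])
    rw [hR, one_mul] at e1
    rw [hR, inv_one, mul_one] at e2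
    exact ⟨hR, e1, e2⟩
  · obtain ⟨-, -, ⟨a, b, hb, h⟩, -⟩ := T
    have ho : o = 1 := eq_one_of_pow hinv hb (by rw [← h, hw, one_pow])
    rw [ho, mul_one] at e1
    rw [e1, inv_one, mul_one] at e2
    exact ⟨e1, ho, e2⟩
  · have hg := T.2.2
    rw [hg, one_mul, inv_eq_one] at e2
    rw [e2, one_mul] at e1
    exact ⟨e2, e1, hg⟩

include hinv in
/-- In a left-ordered group the relations of a closed chain force triviality. -/
theorem closed_trivial {n : ℕ} (hn : 0 < n) {x w R o g : ZMod n → H} {su sw : ZMod n → Prop}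
    (relZ : ∀ i, R (i + 1) * o (i + 1) = x i * (R i * o i) * w i)
    (relU : ∀ i, w (i + 1) * (g (i + 1) * (R (i + 1))⁻¹) = g i * (R i)⁻¹)
    (hst : ∀ i, Adm (su i) (sw i) (x i) (w i) (R i) (o i) (g i))
    (hsu : ∃ i, su i) (hsw : ∃ i, sw i) (i : ZMod n) :
    x i = 1 ∧ w i = 1 ∧ R i = 1 ∧ o i = 1 ∧ g i = 1 := by
  have : NeZero n := ⟨hn.ne'⟩
  have hU : ∀ i, w i * (g i * (R i)⁻¹) = g (i - 1) * (R (i - 1))⁻¹ := by
    intro i
    have := relU (i - 1)
    rwa [sub_add_cancel] at this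
  have hC : CC su sw (fun j => lm hinv (w j)) (fun j => lm hinv (R j * o j))
      (fun j => lm hinv (g j * (R j)⁻¹)) := by
    intro j
    have := hc_of_adm hinv (hst j)
    rw [← relZ, hU] at this
    exact this
  have hz : ∀ i, R i * o i = 1 := fun i => lm_one_iff hinv (hC.z_fix hsu hsw i)
  have hu : ∀ i, g i * (R i)⁻¹ = 1 := fun i => lm_one_iff hinv (hC.u_fix hsu hsw i)
  have hw : w i = 1 := by
    have := hU i
    rwa [hu, hu, mul_one] at this
  have hx : x i = 1 := by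
    have := relZ i
    rw [hz, hz, hw, mul_one, mul_one] at this
    exact this.symm
  exact ⟨hx, hw, rest_trivial hinv (hst i).admissible hx hw (hz i) (hu i)⟩

end group

end Pool.Agent.K7.H39.PC
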