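import Pool.Agent.K7.H39.PC.Chain
import Mathlib.Tactic
import Mathlib.Algebra.Group.Subgroup.Basic
import Mathlib.GroupTheory.QuotientGroup.Basic

set_option autoImplicit false

/-!
# Left-ordered groups and cyclic chains of rational pretzel pieces
-/

namespace Pool.Agent.K7.H39.PC

section order
variable {H : Type*} [Group H] [LinearOrder H] (hinv : ∀ a b c : H, a ≤ b ↔ c * a ≤ c * b)

/-- Left multiplication by `a`. -/
def lm (a : H) : H ≃o H where
  toFun v := a * v
  invFun v := a⁻¹ * v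
  left_inv v := by simp
  right_inv v := by simp
  map_rel_iff' := (hinv _ _ a).symm

theorem lm_apply (a v : H) : lm hinv a v = a * v := rfl

include hinv in
theorem le_pow_mul {a v : H} (h : v ≤ a * v) (n : ℕ) : v ≤ a ^ n * v := by
  induction n with
  | zero => simp
  | succ n ih =>
    have h1 : a * v ≤ a * (a ^ n * v) := (hinv _ _ a).mp ih
    rw [pow_succ', mul_assoc]
    exact h.trans h1

include hinv in
theorem pow_mul_le {a v : H} (h : a * v ≤ v) (n : ℕ) : a ^ n * v ≤ v := by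
  induction n with
  | zero => simp
  | succ n ih =>
    have h1 : a * (a ^ n * v) ≤ a * v := (hinv _ _ a).mp ih
    rw [pow_succ', mul_assoc]
    exact h1.trans h

include hinv in
theorem lt_iff (a b c : H) : a < b ↔ c * a < c * b := by
  rw [← not_le, ← not_le, hinv b a c]

include hinv in
theorem lt_pow_mul {a v : H} (h : v < a * v) {n : ℕ} (hn : 0 < n) : v < a ^ n * v := by
  obtain ⟨n, rfl⟩ := Nat.exists_eq_add_of_le' hn
  have h1 : a * v ≤ a * (a ^ n * v) := (hinv _ _ a).mp (le_pow_mul hinv h.le n)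
  rw [pow_succ', mul_assoc]
  exact h.trans_le h1

include hinv in
theorem pow_mul_lt {a v : H} (h : a * v < v) {n : ℕ} (hn : 0 < n) : a ^ n * v < v := by
  obtain ⟨n, rfl⟩ := Nat.exists_eq_add_of_le' hn
  have h1 : a * (a ^ n * v) ≤ a * v := (hinv _ _ a).mp (pow_mul_le hinv h.le n)
  rw [pow_succ', mul_assoc]
  exact h1.trans_lt h

/-- `f` is a rational power of `g` with exponent `a / b ≥ 0`. -/
theorem fo_of_pow {g f : H} {a b : ℕ} (hb : 0 < b) (h : g ^ a = f ^ b) :
    Fo (lm hinv g) (lm hinv f) := by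
  refine ⟨fun v hv => ?_, fun v hv => ?_⟩
  · rw [lm_apply] at hv ⊢
    by_contra hc
    rw [not_le] at hc
    have h1 := pow_mul_lt hinv hc hb
    have h2 := le_pow_mul hinv hv a
    rw [h] at h2
    exact absurd h1 (not_lt.mpr h2)
  · rw [lm_apply] at hv ⊢
    by_contra hc
    rw [not_le] at hc
    have h1 := lt_pow_mul hinv hc hb
    have h2 := pow_mul_le hinv hv a
    rw [h] at h2
    exact absurd h1 (not_lt.mpr h2)

include hinv in
/-- A left-ordered group has no torsion. -/
theorem eq_one_of_pow {f : H} {b : ℕ} (hb : 0 < b) (h : f ^ b = 1) : f = 1 := by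
  rcases lt_trichotomy f 1 with h1 | h1 | h1
  · have h2 : f ^ b * 1 < 1 := pow_mul_lt hinv (v := 1) (by rwa [mul_one]) hb
    rw [h, mul_one] at h2
    exact absurd h2 (lt_irrefl _)
  · exact h1
  · have h2 : 1 < f ^ b * 1 := lt_pow_mul hinv (v := 1) (by rwa [mul_one]) hb
    rw [h, mul_one] at h2
    exact absurd h2 (lt_irrefl _)

/-- The relations between the elements `x i`, `w i`, `R i`, `o i`, `g i`. -/
structure Rel {n : ℕ} (x w R o g : ZMod n → H) : Prop where
  cR : ∀ i, R i * x i = x i * R i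
  pR : ∀ i, ∃ a b : ℕ, 0 < b ∧ b ≤ a ∧ (x i) ^ a = (R i) ^ b
  co : ∀ i, o i * w i = w i * o i
  po : ∀ i, ∃ a b : ℕ, 0 < b ∧ (w i) ^ a = (o i) ^ b
  cg : ∀ i, g i * (x i * w i) = (x i * w i) * g i
  pg : ∀ i, ∃ a b : ℕ, 0 < b ∧ a ≤ b ∧ (x i * w i) ^ a = (g i) ^ b
  relZ : ∀ i, R (i + 1) * o (i + 1) = x i * (R i * o i) * w i
  relU : ∀ i, w (i + 1) * (g (i + 1) * (R (i + 1))⁻¹) = g i * (R i)⁻¹

include hinv in
/-- In a left-ordered group the relations force triviality. -/
theorem rel_trivial {n : ℕ} (hn : 0 < n) {x w R o g : ZMod n → H} (S : Rel x w R o g)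
    (i : ZMod n) : x i = 1 ∧ w i = 1 := by
  have : NeZero n := ⟨hn.ne'⟩
  have hC : Chain (fun j => lm hinv (x j)) (fun j => lm hinv (w j)) (fun j => lm hinv (R j))
      (fun j => lm hinv ((x j)⁻¹ * R j)) (fun j => lm hinv (o j)) (fun j => lm hinv (g j))
      (fun j => lm hinv (R j * o j)) (fun j => lm hinv (g j * (R j)⁻¹)) := by
    intro j
    have hcR : Commute (x j) (R j) := (S.cR j).symm
    have hcg : Commute (x j * w j) (g j) := (S.cg j).symm
    constructor
    · obtain ⟨a, b, hb, hab, h⟩ := S.pR j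
      refine fo_of_pow hinv (a := a - b) hb ?_
      rw [(hcR.inv_left).mul_pow, ← h, inv_pow]
      obtain ⟨c, rfl⟩ := Nat.exists_eq_add_of_le hab
      rw [Nat.add_sub_cancel_left, pow_add]; group
    · obtain ⟨a, b, hb, h⟩ := S.po j
      exact fo_of_pow hinv hb h
    · intro v
      show R j * v = x j * ((x j)⁻¹ * R j * v)
      group
    · intro v
      show w j * (o j * v) = o j * (w j * v)
      rw [← mul_assoc, ← S.co, mul_assoc]
    · obtain ⟨a, b, hb, hab, h⟩ := S.pg j
      have h1 : Fo (lm hinv (x j * w j)) (lm hinv (g j)) := fo_of_pow hinv hb h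
      have h2 : Fo (lm hinv (x j * w j)) (lm hinv ((g j)⁻¹ * (x j * w j))) := by
        refine fo_of_pow hinv (a := b - a) hb ?_
        rw [(hcg.symm.inv_left).mul_pow, inv_pow, ← h]
        obtain ⟨c, rfl⟩ := Nat.exists_eq_add_of_le hab
        rw [Nat.add_sub_cancel_left, pow_add]; group
      intro v hv
      have hv' : v ≤ x j * w j * v := by rw [mul_assoc]; exact hv
      refine ⟨h1.up v hv', ?_⟩
      have h3 : v ≤ (g j)⁻¹ * (x j * w j) * v := h2.up v hv'
      have h4 := (hinv _ _ (g j)).mp h3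
      show g j * v ≤ x j * (w j * v)
      calc g j * v ≤ g j * ((g j)⁻¹ * (x j * w j) * v) := h4
        _ = x j * (w j * v) := by group
    · obtain ⟨a, b, hb, hab, h⟩ := S.pg j
      have h1 : Fo (lm hinv (x j * w j)) (lm hinv (g j)) := fo_of_pow hinv hb h
      have h2 : Fo (lm hinv (x j * w j)) (lm hinv ((g j)⁻¹ * (x j * w j))) := by
        refine fo_of_pow hinv (a := b - a) hb ?_
        rw [(hcg.symm.inv_left).mul_pow, inv_pow, ← h]
        obtain ⟨c, rfl⟩ := Nat.exists_eq_add_of_le hab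
        rw [Nat.add_sub_cancel_left, pow_add]; group
      intro v hv
      have hv' : x j * w j * v ≤ v := by rw [mul_assoc]; exact hv
      refine ⟨?_, h1.down v hv'⟩
      have h3 : (g j)⁻¹ * (x j * w j) * v ≤ v := h2.down v hv'
      have h4 := (hinv _ _ (g j)).mp h3
      show x j * (w j * v) ≤ g j * v
      calc x j * (w j * v) = g j * ((g j)⁻¹ * (x j * w j) * v) := by group
        _ ≤ g j * v := h4
    · intro v
      show g j * (x j * (w j * v)) = x j * (w j * (g j * v))
      calc g j * (x j * (w j * v)) = (g j * (x j * w j)) * v := by group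
        _ = (x j * w j) * g j * v := by rw [S.cg]
        _ = _ := by group
    · intro v
      show R j * o j * v = R j * (o j * v)
      group
    · intro v
      show R (j + 1) * o (j + 1) * v = R j * (x j * (w j * (o j * v)))
      rw [S.relZ]
      calc x j * (R j * o j) * w j * v = (x j * R j) * (o j * w j) * v := by group
        _ = (R j * x j) * (w j * o j) * v := by rw [← S.cR, S.co]
        _ = _ := by group
    · intro v
      show R (j + 1) * o (j + 1) * v = x j * (R j * o j * (w j * v))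
      rw [S.relZ]; group
    · intro v
      show g j * (R j)⁻¹ * (R j * v) = g j * v
      group
    · intro v
      show g (j - 1) * (R (j - 1))⁻¹ * v = w j * (g j * (R j)⁻¹ * v)
      rw [← S.relU, sub_add_cancel]; group
  have h1 := (hC.fixed i 1).1
  have h2 := (hC.fixed i 1).2
  rw [lm_apply, mul_one] at h1 h2
  exact ⟨h1, h2⟩

end order

section kernel
variable {G : Type*} [Group G] {n : ℕ}

/-- The conjugate of `x` by the `i`-th power of `s`. -/
def cj (s x : G) (i : ZMod n) : G := s ^ i.val * x * (s ^ i.val)⁻¹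

theorem cj_succ (hn : 0 < n) {s : G} (hs : s ^ n = 1) (x : G) (i : ZMod n) :
    cj s x (i + 1) = s * cj s x i * s⁻¹ := by
  have : NeZero n := ⟨hn.ne'⟩
  have h1 : s ^ (i + 1).val = s * s ^ i.val := by
    rw [← pow_succ', ZMod.val_add, ZMod.val_one_eq_one_mod, Nat.add_mod_mod,
      ← pow_eq_pow_mod _ hs]
  unfold cj
  rw [h1]
  group

theorem cj_shift (hn : 0 < n) {s : G} (hs : s ^ n = 1) (x : G) (i : ZMod n) :
    cj s x (i + 1) = cj s (s * x * s⁻¹) i := by
  have : NeZero n := ⟨hn.ne'⟩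
  rw [cj_succ hn hs]
  unfold cj
  have : s * s ^ i.val = s ^ i.val * s := (pow_succ' s _).symm.trans (pow_succ s _)
  calc s * (s ^ i.val * x * (s ^ i.val)⁻¹) * s⁻¹
      = (s * s ^ i.val) * x * (s * s ^ i.val)⁻¹ := by group
    _ = _ := by rw [this]; group

theorem cj_zero (hn : 0 < n) (s x : G) : cj s x (0 : ZMod n) = x := by
  unfold cj; simp

/-- The subgroup generated by the conjugates of the `y k`. -/
def N (n : ℕ) {ι : Type*} (s : G) (y : ι → G) : Subgroup G :=
  Subgroup.closure (Set.range fun p : ι × ZMod n => cj s (y p.1) p.2)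

variable {ι : Type*}

theorem conj_mem (hn : 0 < n) {s : G} {y : ι → G} (hs : s ^ n = 1) {x : G} (hx : x ∈ N n s y) :
    s * x * s⁻¹ ∈ N n s y := by
  induction hx using Subgroup.closure_induction with
  | mem x hx =>
    obtain ⟨p, rfl⟩ := hx
    show s * cj s (y p.1) p.2 * s⁻¹ ∈ _
    rw [← cj_succ hn hs]
    exact Subgroup.subset_closure ⟨(p.1, p.2 + 1), rfl⟩
  | one => simpa using Subgroup.one_mem _
  | mul x y _ _ hx hy =>
    have : s * (x * y) * s⁻¹ = (s * x * s⁻¹) * (s * y * s⁻¹) := by group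
    rw [this]; exact mul_mem hx hy
  | inv x _ hx =>
    have : s * x⁻¹ * s⁻¹ = (s * x * s⁻¹)⁻¹ := by group
    rw [this]; exact inv_mem hx

theorem conj_pow_mem (hn : 0 < n) {s : G} {y : ι → G} (hs : s ^ n = 1) {x : G}
    (hx : x ∈ N n s y) (m : ℕ) : s ^ m * x * (s ^ m)⁻¹ ∈ N n s y := by
  induction m with
  | zero => simpa using hx
  | succ m ih =>
    have : s ^ (m + 1) * x * (s ^ (m + 1))⁻¹ = s * (s ^ m * x * (s ^ m)⁻¹) * s⁻¹ := by
      rw [pow_succ']; group
    rw [this]; exact conj_mem hn hs ih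

theorem inv_eq_pow (hn : 0 < n) {s : G} (hs : s ^ n = 1) (m : ℕ) :
    (s ^ m)⁻¹ = s ^ (m * (n - 1)) := by
  have h1 : s ^ m * s ^ (m * (n - 1)) = 1 := by
    rw [← pow_add]
    have : m + m * (n - 1) = n * m := by
      obtain ⟨n, rfl⟩ := Nat.exists_eq_add_of_le' hn
      simp; ring
    rw [this, pow_mul, hs, one_pow]
  exact inv_eq_of_mul_eq_one_right h1

/-- The subgroup `N ⟨s⟩`. -/
def NS (hn : 0 < n) {s : G} (y : ι → G) (hs : s ^ n = 1) : Subgroup G where
  carrier := {g | ∃ x ∈ N n s y, ∃ m : ℕ, g = x * s ^ m}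
  mul_mem' := by
    rintro _ _ ⟨x, hx, m, rfl⟩ ⟨x', hx', l, rfl⟩
    refine ⟨x * (s ^ m * x' * (s ^ m)⁻¹), mul_mem hx (conj_pow_mem hn hs hx' m), m + l, ?_⟩
    rw [pow_add]; group
  one_mem' := ⟨1, one_mem _, 0, by simp⟩
  inv_mem' := by
    rintro _ ⟨x, hx, m, rfl⟩
    refine ⟨s ^ (m * (n - 1)) * x⁻¹ * (s ^ (m * (n - 1)))⁻¹,
      conj_pow_mem hn hs (inv_mem hx) _, m * (n - 1), ?_⟩
    rw [mul_inv_rev, inv_eq_pow hn hs m]; group

/-- If `G` is generated by `s` and the `y k` then the kernel of `d` is generated by the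
conjugates of the `y k` by powers of `s`. -/
theorem ker_le (hn : 0 < n) {s : G} {y : ι → G} (hs : s ^ n = 1)
    (hgen : ∀ K : Subgroup G, s ∈ K → (∀ k, y k ∈ K) → K = ⊤)
    (d : G →* Multiplicative (ZMod n)) (ds : d s = Multiplicative.ofAdd 1)
    (dy : ∀ k, d (y k) = 1) {g : G} (hg : d g = 1) : g ∈ N n s y := by
  have hy : ∀ k, y k ∈ N n s y := fun k =>
    Subgroup.subset_closure ⟨(k, 0), cj_zero hn s (y k)⟩
  have h1 : NS hn y hs = ⊤ := by
    apply hgen
    · exact ⟨1, one_mem _, 1, by simp⟩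
    · exact fun k => ⟨y k, hy k, 0, by simp⟩
  have h2 : N n s y ≤ d.ker := by
    unfold N
    rw [Subgroup.closure_le]
    rintro _ ⟨p, rfl⟩
    show d _ = 1
    unfold cj; rw [map_mul, map_mul, dy, map_inv]; simp
  have h3 : g ∈ NS hn y hs := by rw [h1]; trivial
  obtain ⟨x, hx, m, rfl⟩ := h3
  have h4 : d x = 1 := h2 hx
  rw [map_mul, h4, one_mul, map_pow, ds, ← ofAdd_nsmul] at hg
  have h5 : (m : ZMod n) = 0 := by
    have := Multiplicative.ofAdd.injective (hg.trans ofAdd_zero.symm)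
    simpa using this
  rw [ZMod.natCast_eq_zero_iff] at h5
  obtain ⟨l, rfl⟩ := h5
  rw [pow_mul, hs, one_pow, mul_one]
  exact hx

end kernel

end Pool.Agent.K7.H39.PC
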