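import Pool.Agent.K7.H39.PC.Group
import Mathlib

set_option autoImplicit false

/-!
# The lifts of the crossing circles of a pretzel knot

Let `K` be the unknot drawn as the pretzel knot `P(1, -1, -1)` and let `C 0`, `C 1`, `C 2` be
circles around the three columns of `K`.  For `n ≥ 1` the preimage of the three circles in the
`n`-fold cyclic cover of the 3-sphere branched along `K` (again a 3-sphere) is a link with `3 n`
components.  Surgery on the component over `C j` in the copy `i` replaces in this copy the `j`-th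
column by `± (2 r + 1)` crossings, where `r` is a rational number or infinity.
-/

namespace Pool.Agent.K7.H39.PC

/-- A nontrivial group is left-orderable if it carries a strict total order that is invariant
under left multiplication. -/
def LeftOrderable (G : Type*) [Group G] : Prop :=
  Nontrivial G ∧ ∃ lt : G → G → Prop, IsStrictTotalOrder G lt ∧
    ∀ a b c : G, lt a b ↔ lt (c * a) (c * b)

/-- One crossing of a vertical twist region: if the two strands, both oriented downwards, have
meridians `(x, y)` (left, right) above the crossing, then they have meridians `(y, y⁻¹ x y)`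
below it.  The inverse is the crossing of the other handedness. -/
def crossing (G : Type*) [Group G] : Equiv.Perm (G × G) where
  toFun w := (w.2, w.2⁻¹ * w.1 * w.2)
  invFun w := (w.1 * w.2 * w.1⁻¹, w.1)
  left_inv w := by ext <;> simp [mul_assoc]
  right_inv w := by ext <;> simp [mul_assoc]

/-- The meridian `top j` belongs to the arc at the top of the diagram that joins the top right end
of column `j - 1` to the top left end of column `j`, oriented into column `j`; `circ j` is the
meridian of the circle around column `j`. -/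
inductive Gen : Type
  | top (j : Fin 3)
  | circ (j : Fin 3)

/-- The meridians of the three top arcs. -/
def top (j : Fin 3) : FreeGroup Gen := FreeGroup.of (Gen.top j)

/-- The meridians of the three circles. -/
def circ (j : Fin 3) : FreeGroup Gen := FreeGroup.of (Gen.circ j)

/-- The longitude of the circle around column `j`: the product of the downward meridians of the
two strands of this column. -/
def around (j : Fin 3) : FreeGroup Gen := top j * (top (j + 1))⁻¹

/-- The handedness of the columns of the pretzel knot `P(1, -1, -1)`. -/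
def hand : Fin 3 → ℤ := ![1, -1, -1]

/-- The downward meridians of the two strands at the bottom of column `j`, after the strands have
passed through the circle and one crossing. -/
def bottom (j : Fin 3) : FreeGroup Gen × FreeGroup Gen :=
  (crossing (FreeGroup Gen) ^ hand j)
    ((circ j)⁻¹ * top j * circ j, (circ j)⁻¹ * (top (j + 1))⁻¹ * circ j)

/-- The bottom right end of column `j` is joined to the bottom left end of column `j + 1`. -/
def relator (j : Fin 3) : FreeGroup Gen := (bottom j).2 * (bottom (j + 1)).1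

/-- The meridian of the circle around column `j` commutes with its longitude. -/
def commuting (j : Fin 3) : FreeGroup Gen := circ j * around j * (circ j)⁻¹ * (around j)⁻¹

/-- The relations of the group of the link that consists of `K` and the three circles, and the
`n`-th power of a meridian of `K`. -/
def relations (n : ℕ) : Set (FreeGroup Gen) :=
  Set.range relator ∪ Set.range commuting ∪ {top 0 ^ n}

/-- The group of the link that consists of `K` and the three circles, modulo the `n`-th power of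
a meridian of `K`. -/
abbrev OrbifoldGroup (n : ℕ) : Type := PresentedGroup (relations n)

theorem bottom_zero : bottom 0 = ((circ 0)⁻¹ * (top 1)⁻¹ * circ 0,
    ((circ 0)⁻¹ * (top 1)⁻¹ * circ 0)⁻¹ * ((circ 0)⁻¹ * top 0 * circ 0) *
      ((circ 0)⁻¹ * (top 1)⁻¹ * circ 0)) := by
  unfold bottom
  rw [show hand 0 = 1 from rfl, zpow_one]
  rfl

theorem bottom_neg (j : Fin 3) (h : hand j = -1) :
    bottom j = (((circ j)⁻¹ * top j * circ j) * ((circ j)⁻¹ * (top (j + 1))⁻¹ * circ j) *
      ((circ j)⁻¹ * top j * circ j)⁻¹, (circ j)⁻¹ * top j * circ j) := by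
  unfold bottom
  rw [h, zpow_neg_one]
  rfl

/-- The values of the degree homomorphism on the generators. -/
def deg (n : ℕ) : Gen → Multiplicative (ZMod n)
  | Gen.top _ => Multiplicative.ofAdd 1
  | Gen.circ _ => 1

theorem degree_rel (n : ℕ) : ∀ w ∈ relations n, FreeGroup.lift (deg n) w = 1 := by
  have ht : ∀ j, FreeGroup.lift (deg n) (top j) = Multiplicative.ofAdd 1 := fun j => by
    simp [top, deg]
  have hc : ∀ j, FreeGroup.lift (deg n) (circ j) = 1 := fun j => by simp [circ, deg]
  rintro w ((⟨j, rfl⟩ | ⟨j, rfl⟩) | rfl)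
  · fin_cases j
    · show FreeGroup.lift (deg n) ((bottom 0).2 * (bottom 1).1) = 1
      rw [bottom_zero, bottom_neg 1 rfl]
      simp [ht, hc]
    · show FreeGroup.lift (deg n) ((bottom 1).2 * (bottom 2).1) = 1
      rw [bottom_neg 1 rfl, bottom_neg 2 rfl]
      simp [ht, hc]
    · show FreeGroup.lift (deg n) ((bottom 2).2 * (bottom 0).1) = 1
      rw [bottom_zero, bottom_neg 2 rfl]
      simp [ht, hc]
  · simp [commuting, around, ht, hc]
  · rw [map_pow, ht, ← ofAdd_nsmul]
    simp

/-- The homomorphism of the orbifold group to `Z/n` that sends all meridians of `K` to `1` and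
the meridians of the circles to `0`. -/
def degree (n : ℕ) : OrbifoldGroup n →* Multiplicative (ZMod n) :=
  PresentedGroup.toGroup (degree_rel n)

/-- The group of the link with `3 n` components: the kernel of `degree n`, which is the
fundamental group of the complement of the preimage of the three circles in the `n`-fold cyclic
cover branched along `K`. -/
abbrev LinkGroup (n : ℕ) : Type := (degree n).ker

theorem degree_circ (n : ℕ) (j : Fin 3) :
    PresentedGroup.mk (relations n) (circ j) ∈ (degree n).ker :=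
  (PresentedGroup.toGroup.of (degree_rel n) : degree n (PresentedGroup.of (Gen.circ j)) = _)

theorem degree_top (n : ℕ) (j : Fin 3) :
    degree n (PresentedGroup.mk (relations n) (top j)) = Multiplicative.ofAdd 1 :=
  (PresentedGroup.toGroup.of (degree_rel n) : degree n (PresentedGroup.of (Gen.top j)) = _)

theorem degree_around (n : ℕ) (j : Fin 3) :
    PresentedGroup.mk (relations n) (around j) ∈ (degree n).ker := by
  show degree n _ = 1
  unfold around
  rw [map_mul, map_inv, map_mul, map_inv, degree_top, degree_top, mul_inv_cancel]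

/-- The conjugate of an element of the link group by the `i`-th power of the meridian `top 0`:
this moves the base copy to the copy `i`. -/
def copy (n : ℕ) (i : ZMod n) : LinkGroup n →* LinkGroup n :=
  (MulAut.conjNormal (PresentedGroup.mk (relations n) (top 0) ^ i.val)).toMonoidHom

/-- The meridian of the component over the circle `j` in the copy `i`. -/
def meridian (n : ℕ) (j : Fin 3) (i : ZMod n) : LinkGroup n :=
  copy n i ⟨PresentedGroup.mk (relations n) (circ j), degree_circ n j⟩

/-- The longitude of the component over the circle `j` in the copy `i`. -/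
def longitude (n : ℕ) (j : Fin 3) (i : ZMod n) : LinkGroup n :=
  copy n i ⟨PresentedGroup.mk (relations n) (around j), degree_around n j⟩

/-- The surgery relation of the component over the circle `j` in the copy `i`: the column `j` of
the copy `i` gets `hand j * (2 r + 1)` crossings with `r = p j i / q j i`. -/
def surgeryRelator (n : ℕ) (p q : Fin 3 → ZMod n → ℕ) (j : Fin 3) (i : ZMod n) : LinkGroup n :=
  meridian n j i ^ q j i * (longitude n j i ^ (hand j * (p j i : ℤ)))⁻¹

/-- The fundamental group of the manifold obtained by surgery on all `3 n` components. -/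
abbrev SurgeryGroup (n : ℕ) (p q : Fin 3 → ZMod n → ℕ) : Type :=
  LinkGroup n ⧸ Subgroup.normalClosure
    (Set.range fun a : Fin 3 × ZMod n => surgeryRelator n p q a.1 a.2)

/-- `G` has no nontrivial homomorphism to a left-orderable group; in particular it is not
left-orderable. -/
theorem not_lo {G : Type} [Group G]
    (h : ∀ (H : Type) [Group H], LeftOrderable H → ∀ f : G →* H, ∀ g, f g = 1) :
    ¬ LeftOrderable G := by
  intro hG
  obtain ⟨a, b, hab⟩ := hG.1
  have key := h G hG (MonoidHom.id _)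
  exact hab ((key a).trans (key b).symm)

theorem lo_order {H : Type*} [Group H] (hH : LeftOrderable H) :
    ∃ _ : LinearOrder H, ∀ a b c : H, a ≤ b ↔ c * a ≤ c * b := by
  classical
  obtain ⟨_, lt, hlt, hinv⟩ := hH
  refine ⟨linearOrderOfSTO lt, ?_⟩
  intro a b c
  show (a = b ∨ lt a b) ↔ (c * a = c * b ∨ lt (c * a) (c * b))
  rw [mul_right_inj, ← hinv]

section relations
variable {G : Type*} [Group G]

/-- The first relation of the orbifold group. -/
theorem rel_first (s X W c0 c1 : G)
    (h : (c0⁻¹ * (X⁻¹ * s)⁻¹ * c0)⁻¹ * (c0⁻¹ * s * c0) * (c0⁻¹ * (X⁻¹ * s)⁻¹ * c0) *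
      ((c1⁻¹ * (X⁻¹ * s) * c1) * (c1⁻¹ * (W * s)⁻¹ * c1) * (c1⁻¹ * (X⁻¹ * s) * c1)⁻¹) = 1) :
    s * (X * c0 * c1⁻¹ * (X⁻¹ * W⁻¹)) * s⁻¹ = X * c0 * c1⁻¹ * X⁻¹ := by
  have h1 : s * (X * c0 * c1⁻¹ * (X⁻¹ * W⁻¹)) * s⁻¹ = X * c0 *
      ((c0⁻¹ * (X⁻¹ * s)⁻¹ * c0)⁻¹ * (c0⁻¹ * s * c0) * (c0⁻¹ * (X⁻¹ * s)⁻¹ * c0) *
      ((c1⁻¹ * (X⁻¹ * s) * c1) * (c1⁻¹ * (W * s)⁻¹ * c1) * (c1⁻¹ * (X⁻¹ * s) * c1)⁻¹)) *
      c1⁻¹ * X⁻¹ := by group
  rw [h1, h, mul_one]

/-- The second relation of the orbifold group. -/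
theorem rel_second (s X W c1 c2 : G)
    (h : (c1⁻¹ * (X⁻¹ * s) * c1) * ((c2⁻¹ * (W * s) * c2) * (c2⁻¹ * s⁻¹ * c2) *
      (c2⁻¹ * (W * s) * c2)⁻¹) = 1) :
    s * (c1 * c2⁻¹ * W) * s⁻¹ = X * c1 * c2⁻¹ * W := by
  have h1 : s * (c1 * c2⁻¹ * W) * s⁻¹ = X * c1 * ((c1⁻¹ * (X⁻¹ * s) * c1) *
      ((c2⁻¹ * (W * s) * c2) * (c2⁻¹ * s⁻¹ * c2) * (c2⁻¹ * (W * s) * c2)⁻¹)) * c2⁻¹ * W := by
    group
  rw [h1, h, mul_one]

theorem relZ (s X W c0 c1 c2 : G) (h0 : c0 * X = X * c0) (h1 : c1 * (W * X) = (W * X) * c1)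
    (h2 : c2 * W = W * c2)
    (A : s * (X * c0 * c1⁻¹ * (X⁻¹ * W⁻¹)) * s⁻¹ = X * c0 * c1⁻¹ * X⁻¹)
    (B : s * (c1 * c2⁻¹ * W) * s⁻¹ = X * c1 * c2⁻¹ * W) :
    s * (c0 * c2⁻¹) * s⁻¹ = X * (c0 * c2⁻¹) * W := by
  have e2 : c2⁻¹ * W = W * c2⁻¹ := by
    calc c2⁻¹ * W = c2⁻¹ * (W * c2) * c2⁻¹ := by group
      _ = c2⁻¹ * (c2 * W) * c2⁻¹ := by rw [h2]
      _ = _ := by group
  have e1 : c1⁻¹ * (X⁻¹ * W⁻¹) * c1 = X⁻¹ * W⁻¹ := by
    calc c1⁻¹ * (X⁻¹ * W⁻¹) * c1 = c1⁻¹ * (X⁻¹ * W⁻¹) * (c1 * (W * X)) * (X⁻¹ * W⁻¹) := by group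
      _ = c1⁻¹ * (X⁻¹ * W⁻¹) * ((W * X) * c1) * (X⁻¹ * W⁻¹) := by rw [h1]
      _ = _ := by group
  have e3 : X * c0 * c1⁻¹ * (X⁻¹ * W⁻¹) * (c1 * c2⁻¹ * W) = c0 * c2⁻¹ := by
    calc X * c0 * c1⁻¹ * (X⁻¹ * W⁻¹) * (c1 * c2⁻¹ * W)
        = (X * c0) * (c1⁻¹ * (X⁻¹ * W⁻¹) * c1) * (c2⁻¹ * W) := by group
      _ = (c0 * X) * (X⁻¹ * W⁻¹) * (W * c2⁻¹) := by rw [e1, e2, h0]
      _ = _ := by group
  calc s * (c0 * c2⁻¹) * s⁻¹
      = (s * (X * c0 * c1⁻¹ * (X⁻¹ * W⁻¹)) * s⁻¹) * (s * (c1 * c2⁻¹ * W) * s⁻¹) := by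
        rw [← e3]; group
    _ = X * c0 * (c2⁻¹ * W) := by rw [A, B]; group
    _ = _ := by group

theorem relU (s X W c0 c1 : G) (h0 : c0 * X = X * c0)
    (A : s * (X * c0 * c1⁻¹ * (X⁻¹ * W⁻¹)) * s⁻¹ = X * c0 * c1⁻¹ * X⁻¹) :
    s * (W * (X * c1 * X⁻¹ * c0⁻¹)) * s⁻¹ = X * c1 * X⁻¹ * c0⁻¹ := by
  have e0 : X⁻¹ * c0⁻¹ = c0⁻¹ * X⁻¹ := by
    rw [← mul_inv_rev, ← mul_inv_rev, h0]
  calc s * (W * (X * c1 * X⁻¹ * c0⁻¹)) * s⁻¹
      = s * (W * X * c1 * (X⁻¹ * c0⁻¹)) * s⁻¹ := by group
    _ = s * (W * X * c1 * (c0⁻¹ * X⁻¹)) * s⁻¹ := by rw [e0]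
    _ = (s * (X * c0 * c1⁻¹ * (X⁻¹ * W⁻¹)) * s⁻¹)⁻¹ := by group
    _ = (X * c0 * c1⁻¹ * X⁻¹)⁻¹ := by rw [A]
    _ = X * c1 * (c0⁻¹ * X⁻¹) := by group
    _ = X * c1 * (X⁻¹ * c0⁻¹) := by rw [e0]
    _ = _ := by group

end relations

/-- The relations that a homomorphism from the surgery group gives. -/
theorem surgery_data {n : ℕ} (hn : 0 < n) (p q : Fin 3 → ZMod n → ℕ)
    {H : Type*} [Group H] (f : SurgeryGroup n p q →* H) :
    ∃ x w R o c : ZMod n → H, (∀ i, R i * x i = x i * R i) ∧ (∀ i, o i * w i = w i * o i) ∧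
      (∀ i, c i * (w i * x i) = (w i * x i) * c i) ∧ (∀ i, x i ^ p 0 i = R i ^ q 0 i) ∧
      (∀ i, w i ^ p 2 i = o i ^ q 2 i) ∧ (∀ i, (w i * x i) ^ p 1 i = c i ^ q 1 i) ∧
      (∀ i, R (i + 1) * o (i + 1) = x i * (R i * o i) * w i) ∧
      (∀ i, w (i + 1) * ((x (i + 1) * c (i + 1) * (x (i + 1))⁻¹) * (R (i + 1))⁻¹)
        = (x i * c i * (x i)⁻¹) * (R i)⁻¹) ∧
      ((∀ i, x i = 1 ∧ w i = 1 ∧ R i = 1 ∧ o i = 1 ∧ c i = 1) → ∀ g, f g = 1) := by
  have : NeZero n := ⟨hn.ne'⟩
  set μ := PresentedGroup.mk (relations n) with hμ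
  set s := μ (top 0) with hs0
  set X := μ (around 0) with hX
  set V := μ (around 1) with hV
  set W := μ (around 2) with hW
  set c : Fin 3 → OrbifoldGroup n := fun j => μ (circ j) with hc
  have hs : s ^ n = 1 := by
    have : μ (top 0 ^ n) = 1 := PresentedGroup.one_of_mem (Or.inr rfl)
    rwa [map_pow] at this
  have e1 : μ (top 1) = X⁻¹ * s := by
    have : X = s * (μ (top 1))⁻¹ := by
      rw [hX, hs0]; unfold around; rw [map_mul, map_inv]; rfl
    rw [this]; group
  have e2 : μ (top 2) = W * s := by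
    have : W = μ (top 2) * s⁻¹ := by
      rw [hW, hs0]; unfold around; rw [map_mul, map_inv]; rfl
    rw [this]; group
  have eV : V = X⁻¹ * W⁻¹ := by
    have : V = μ (top 1) * (μ (top 2))⁻¹ := by
      rw [hV]; unfold around; rw [map_mul, map_inv]; rfl
    rw [this, e1, e2]; group
  have comm : ∀ j, c j * μ (around j) = μ (around j) * c j := by
    intro j
    have : μ (commuting j) = 1 := PresentedGroup.one_of_mem (Or.inl (Or.inr ⟨j, rfl⟩))
    unfold commuting at this
    rw [map_mul, map_mul, map_mul, map_inv, map_inv] at this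
    rw [← mul_inv_eq_iff_eq_mul, ← mul_inv_eq_one]
    exact this
  have R0 : μ (relator 0) = 1 := PresentedGroup.one_of_mem (Or.inl (Or.inl ⟨0, rfl⟩))
  have R1 : μ (relator 1) = 1 := PresentedGroup.one_of_mem (Or.inl (Or.inl ⟨1, rfl⟩))
  have A : s * (X * c 0 * (c 1)⁻¹ * (X⁻¹ * W⁻¹)) * s⁻¹ = X * c 0 * (c 1)⁻¹ * X⁻¹ := by
    apply rel_first
    have h : μ ((bottom 0).2 * (bottom 1).1) = 1 := R0
    rw [bottom_zero, bottom_neg 1 rfl] at h
    simp only [map_mul, map_inv] at h
    rw [show (1 : Fin 3) + 1 = 2 from rfl, e1, e2] at h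
    exact h
  have B : s * (c 1 * (c 2)⁻¹ * W) * s⁻¹ = X * c 1 * (c 2)⁻¹ * W := by
    apply rel_second
    have h : μ ((bottom 1).2 * (bottom 2).1) = 1 := R1
    rw [bottom_neg 1 rfl, bottom_neg 2 rfl] at h
    simp only [map_mul, map_inv] at h
    rw [show (2 : Fin 3) + 1 = 0 from rfl, e1, e2] at h
    exact h
  have comm0 : c 0 * X = X * c 0 := comm 0
  have commV : c 1 * V = V * c 1 := comm 1
  have comm2 : c 2 * W = W * c 2 := comm 2
  have commWX : c 1 * (W * X) = (W * X) * c 1 := by
    have hWX : W * X = V⁻¹ := by rw [eV]; group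
    rw [hWX]
    exact (Commute.inv_right (show Commute (c 1) V from commV)).eq
  have Z := relZ s X W (c 0) (c 1) (c 2) comm0 commWX comm2 A B
  have U := relU s X W (c 0) (c 1) comm0 A
  -- the elements of the kernel
  have kX : X ∈ (degree n).ker := degree_around n 0
  have kV : V ∈ (degree n).ker := degree_around n 1
  have kW : W ∈ (degree n).ker := degree_around n 2
  have kc : ∀ j, c j ∈ (degree n).ker := degree_circ n
  set X' : LinkGroup n := ⟨X, kX⟩ with hX'
  set W' : LinkGroup n := ⟨W, kW⟩ with hW'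
  set V' : LinkGroup n := ⟨V, kV⟩ with hV'
  set c' : Fin 3 → LinkGroup n := fun j => ⟨c j, kc j⟩ with hc'
  set φ : LinkGroup n →* H := f.comp (QuotientGroup.mk' _) with hφ
  have copy_val : ∀ (i : ZMod n) (y : LinkGroup n), (copy n i y).1 = cj s y.1 i := fun i y => rfl
  have key : ∀ (i : ZMod n) (y y' : LinkGroup n), s * y.1 * s⁻¹ = y'.1 →
      φ (copy n (i + 1) y) = φ (copy n i y') := by
    intro i y y' hy
    congr 1
    apply Subtype.ext
    rw [copy_val, copy_val, cj_shift hn hs, hy]
  have sur : ∀ j i, φ (copy n i (c' j)) ^ q j i =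
      φ (copy n i ⟨μ (around j), degree_around n j⟩) ^ (hand j * (p j i : ℤ)) := by
    intro j i
    have h2 : φ (surgeryRelator n p q j i) = 1 := by
      have h3 : (QuotientGroup.mk' (Subgroup.normalClosure
          (Set.range fun a : Fin 3 × ZMod n => surgeryRelator n p q a.1 a.2)))
          (surgeryRelator n p q j i) = 1 := by
        rw [QuotientGroup.mk'_apply, QuotientGroup.eq_one_iff]
        exact Subgroup.subset_normalClosure ⟨(j, i), rfl⟩
      rw [hφ, MonoidHom.comp_apply, h3, map_one]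
    unfold surgeryRelator meridian longitude at h2
    rw [map_mul, map_inv, map_pow, map_zpow, mul_inv_eq_one] at h2
    exact h2
  have hprod : ∀ a b : LinkGroup n, a.1 * b.1 = b.1 * a.1 → ∀ i,
      φ (copy n i a) * φ (copy n i b) = φ (copy n i b) * φ (copy n i a) := by
    intro a b hab i
    rw [← map_mul, ← map_mul, ← map_mul, ← map_mul]
    congr 2
    exact Subtype.ext hab
  refine ⟨fun i => φ (copy n i X'), fun i => φ (copy n i W'), fun i => φ (copy n i (c' 0)),
    fun i => (φ (copy n i (c' 2)))⁻¹, fun i => φ (copy n i (c' 1)), ?_, ?_, ?_, ?_, ?_, ?_, ?_,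
    ?_, ?_⟩
  · intro i
    exact hprod _ _ comm0 i
  · intro i
    have := hprod (c' 2) W' comm2 i
    exact (Commute.inv_left (show Commute (φ (copy n i (c' 2))) (φ (copy n i W')) from this)).eq
  · intro i
    have := hprod (c' 1) (W' * X') commWX i
    simpa only [map_mul] using this
  · intro i
    have := sur 0 i
    rw [show hand 0 = 1 from rfl, one_mul, zpow_natCast] at this
    exact this.symm
  · intro i
    have := sur 2 i
    rw [show hand 2 = -1 from rfl, neg_one_mul, zpow_neg, zpow_natCast] at this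
    show φ (copy n i W') ^ p 2 i = (φ (copy n i (c' 2)))⁻¹ ^ q 2 i
    rw [inv_pow, this, inv_inv]
  · intro i
    have h2 := sur 1 i
    rw [show hand 1 = -1 from rfl, neg_one_mul, zpow_neg, zpow_natCast] at h2
    have h3 : (⟨μ (around 1), degree_around n 1⟩ : LinkGroup n) = (W' * X')⁻¹ :=
      Subtype.ext (eV.trans (by show X⁻¹ * W⁻¹ = (W * X)⁻¹; group))
    rw [h3, map_inv, map_inv, inv_pow, inv_inv, map_mul, map_mul] at h2
    exact h2.symm
  · intro i
    have := key i (c' 0 * (c' 2)⁻¹) (X' * (c' 0 * (c' 2)⁻¹) * W') Z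
    simpa only [map_mul, map_inv] using this
  · intro i
    have := key i (W' * (X' * c' 1 * X'⁻¹ * (c' 0)⁻¹)) (X' * c' 1 * X'⁻¹ * (c' 0)⁻¹) U
    simpa only [map_mul, map_inv] using this
  · intro triv g
    have trivX : ∀ i, φ (copy n i X') = 1 := fun i => (triv i).1
    have trivW : ∀ i, φ (copy n i W') = 1 := fun i => (triv i).2.1
    have triv_c : ∀ j i, φ (copy n i (c' j)) = 1 := by
      intro j i
      fin_cases j
      · exact (triv i).2.2.1
      · exact (triv i).2.2.2.2
      · exact inv_eq_one.mp (triv i).2.2.2.1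
    -- generation
    set y : Fin 2 ⊕ Fin 3 → OrbifoldGroup n := Sum.elim ![X, W] c with hy
    have hgen : ∀ K : Subgroup (OrbifoldGroup n), s ∈ K → (∀ k, y k ∈ K) → K = ⊤ := by
      intro K ks ky
      have kX : X ∈ K := ky (Sum.inl 0)
      have kW : W ∈ K := ky (Sum.inl 1)
      have kc : ∀ j, c j ∈ K := fun j => ky (Sum.inr j)
      have kt : ∀ j, μ (top j) ∈ K := by
        intro j
        fin_cases j
        · exact ks
        · show μ (top 1) ∈ K
          rw [e1]; exact mul_mem (inv_mem kX) ks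
        · show μ (top 2) ∈ K
          rw [e2]; exact mul_mem kW ks
      rw [eq_top_iff, ← PresentedGroup.closure_range_of, Subgroup.closure_le]
      rintro _ ⟨j, rfl⟩
      rcases j with j | j
      · exact kt j
      · exact kc j
    have ds : degree n s = Multiplicative.ofAdd 1 := degree_top n 0
    have dy : ∀ k, degree n (y k) = 1 := by
      rintro (k | k)
      · fin_cases k
        · exact kX
        · exact kW
      · exact kc k
    have h1 : N n s y ≤ φ.ker.map (degree n).ker.subtype := by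
      unfold N
      rw [Subgroup.closure_le]
      rintro _ ⟨⟨k, i⟩, rfl⟩
      rcases k with k | k
      · fin_cases k
        · exact ⟨copy n i X', trivX i, rfl⟩
        · exact ⟨copy n i W', trivW i, rfl⟩
      · exact ⟨copy n i (c' k), triv_c k i, rfl⟩
    obtain ⟨g, rfl⟩ := QuotientGroup.mk'_surjective _ g
    obtain ⟨g', hg', hgg⟩ := h1 (ker_le hn hs hgen (degree n) ds dy g.2)
    have : g' = g := Subtype.ext hgg
    rw [← this]; exact hg'

end Pool.Agent.K7.H39.PC
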