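import Pool.Agent.K7.H39.PC.Pass

set_option autoImplicit false

/-!
# Open chains in left-ordered groups
-/

namespace Pool.Agent.K7.H39.PC

variable {H : Type*} [Group H] [LinearOrder H] (hinv : ∀ a b c : H, a ≤ b ↔ c * a ≤ c * b)

include hinv in
theorem strict_up {g f v : H} {a b : ℕ} (ha : 0 < a) (h : g ^ a = f ^ b) (hv : v < g * v) :
    v < f * v := by
  by_contra hc
  have h1 := pow_mul_le hinv (not_lt.mp hc) b
  have h2 := lt_pow_mul hinv hv ha
  rw [h] at h2
  exact absurd h2 (not_lt.mpr h1)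

include hinv in
theorem strict_dn {g f v : H} {a b : ℕ} (ha : 0 < a) (h : g ^ a = f ^ b) (hv : g * v < v) :
    f * v < v := by
  by_contra hc
  have h1 := le_pow_mul hinv (not_lt.mp hc) b
  have h2 := pow_mul_lt hinv hv ha
  rw [h] at h2
  exact absurd h2 (not_lt.mpr h1)

/-- `R = x ^ p` with `p ≥ 1`, `o = w ^ k` with `k ≥ 0`, `g = (x w) ^ a` with `0 ≤ a ≤ 1`. -/
def TypeA {H : Type*} [Group H] (x w R o g : H) : Prop :=
  R * x = x * R ∧ (∃ a b : ℕ, 0 < b ∧ b ≤ a ∧ x ^ a = R ^ b) ∧ o * w = w * o ∧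
    (∃ a b : ℕ, 0 < b ∧ w ^ a = o ^ b) ∧ g * (x * w) = (x * w) * g ∧
    ∃ a b : ℕ, 0 < b ∧ a ≤ b ∧ (x * w) ^ a = g ^ b

/-- `w = 1`, `R = x ^ p` with `p ≥ 1`, `g = x ^ a` with `0 ≤ a ≤ 1`, not both `1`. -/
def TypeU {H : Type*} [Group H] (x w R g : H) : Prop :=
  w = 1 ∧ R * x = x * R ∧ g * x = x * g ∧ ∃ a b a' b' : ℕ, 0 < b ∧ b ≤ a ∧ x ^ a = R ^ b ∧
    0 < b' ∧ a' ≤ b' ∧ x ^ a' = g ^ b' ∧ (b < a ∨ a' < b')

/-- `x = 1`, `o = w ^ k` with `k ≥ 0`, `g = w ^ a` with `0 ≤ a ≤ 1`. -/
def TypeW {H : Type*} [Group H] (x w o g : H) : Prop :=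
  x = 1 ∧ o * w = w * o ∧ (∃ a b : ℕ, 0 < b ∧ w ^ a = o ^ b) ∧ g * w = w * g ∧
    ∃ a b : ℕ, 0 < b ∧ a ≤ b ∧ w ^ a = g ^ b

omit [LinearOrder H] in
theorem root_lem {x f : H} {a b : ℕ} (hc : f * x = x * f) (hab : a ≤ b) (h : x ^ a = f ^ b) :
    x ^ (b - a) = (f⁻¹ * x) ^ b := by
  have hc' : Commute f x := hc
  rw [(hc'.inv_left).mul_pow, inv_pow, ← h]
  obtain ⟨c, rfl⟩ := Nat.exists_eq_add_of_le hab
  rw [Nat.add_sub_cancel_left, pow_add]; group

omit [LinearOrder H] in
theorem root_lem' {x f : H} {a b : ℕ} (hc : f * x = x * f) (hab : b ≤ a) (h : x ^ a = f ^ b) :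
    x ^ (a - b) = (x⁻¹ * f) ^ b := by
  have hc' : Commute x f := hc.symm
  rw [(hc'.inv_left).mul_pow, inv_pow, ← h]
  obtain ⟨c, rfl⟩ := Nat.exists_eq_add_of_le hab
  rw [Nat.add_sub_cancel_left, pow_add]; group

include hinv in
/-- A power of `x` with exponent between `0` and `1` is between `1` and `x`. -/
theorem between_up {x f v : H} {a b : ℕ} (hb : 0 < b) (hc : f * x = x * f) (hab : a ≤ b)
    (h : x ^ a = f ^ b) (hv : v ≤ x * v) : v ≤ f * v ∧ f * v ≤ x * v := by
  refine ⟨(fo_of_pow hinv hb h).up v hv, ?_⟩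
  have h1 : v ≤ (f⁻¹ * x) * v := (fo_of_pow hinv hb (root_lem hc hab h)).up v hv
  have h2 := (hinv _ _ f).mp h1
  rwa [← mul_assoc, mul_inv_cancel_left] at h2

include hinv in
theorem between_dn {x f v : H} {a b : ℕ} (hb : 0 < b) (hc : f * x = x * f) (hab : a ≤ b)
    (h : x ^ a = f ^ b) (hv : x * v ≤ v) : x * v ≤ f * v ∧ f * v ≤ v := by
  refine ⟨?_, (fo_of_pow hinv hb h).down v hv⟩
  have h1 : (f⁻¹ * x) * v ≤ v := (fo_of_pow hinv hb (root_lem hc hab h)).down v hv
  have h2 := (hinv _ _ f).mp h1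
  rwa [← mul_assoc, mul_inv_cancel_left] at h2

include hinv in
/-- A power of `x` with exponent at least `1` is beyond `x`. -/
theorem beyond_up {x f v : H} {a b : ℕ} (hb : 0 < b) (hc : f * x = x * f) (hab : b ≤ a)
    (h : x ^ a = f ^ b) (hv : v ≤ x * v) : x * v ≤ f * v := by
  have h1 : v ≤ (x⁻¹ * f) * v := (fo_of_pow hinv hb (root_lem' hc hab h)).up v hv
  have h2 := (hinv _ _ x).mp h1
  rwa [← mul_assoc x, mul_inv_cancel_left] at h2

include hinv in
theorem beyond_dn {x f v : H} {a b : ℕ} (hb : 0 < b) (hc : f * x = x * f) (hab : b ≤ a)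
    (h : x ^ a = f ^ b) (hv : x * v ≤ v) : f * v ≤ x * v := by
  have h1 : (x⁻¹ * f) * v ≤ v := (fo_of_pow hinv hb (root_lem' hc hab h)).down v hv
  have h2 := (hinv _ _ x).mp h1
  rwa [← mul_assoc x, mul_inv_cancel_left] at h2

theorem stage_of_typeA {x w R o g : H} (T : TypeA x w R o g) :
    Stage (lm hinv x) (lm hinv w) (lm hinv R) (lm hinv (x⁻¹ * R)) (lm hinv o) (lm hinv g)
      (lm hinv (R * o)) (lm hinv (x * (R * o) * w)) (lm hinv (g * R⁻¹))
      (lm hinv (w * (g * R⁻¹))) := by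
  obtain ⟨cR, ⟨a, b, hb, hab, h⟩, co, ⟨a2, b2, hb2, h2⟩, cg, a1, b1, hb1, hab1, h1⟩ := T
  constructor
  · exact fo_of_pow hinv hb (root_lem' cR hab h)
  · exact fo_of_pow hinv hb2 h2
  · intro v
    show R * v = x * (x⁻¹ * R * v)
    group
  · intro v
    show w * (o * v) = o * (w * v)
    rw [← mul_assoc, ← co, mul_assoc]
  · intro v hv
    have := between_up hinv (v := v) hb1 cg hab1 h1 (by rw [mul_assoc]; exact hv)
    rw [mul_assoc x w v] at this
    exact this
  · intro v hv
    have := between_dn hinv (v := v) hb1 cg hab1 h1 (by rw [mul_assoc]; exact hv)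
    rw [mul_assoc x w v] at this
    exact this
  · intro v
    show g * (x * (w * v)) = x * (w * (g * v))
    calc g * (x * (w * v)) = (g * (x * w)) * v := by group
      _ = (x * w) * g * v := by rw [cg]
      _ = _ := by group
  · intro v
    show R * o * v = R * (o * v)
    group
  · intro v
    show x * (R * o) * w * v = R * (x * (w * (o * v)))
    calc x * (R * o) * w * v = (x * R) * (o * w) * v := by group
      _ = (R * x) * (w * o) * v := by rw [← cR, co]
      _ = _ := by group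
  · intro v
    show x * (R * o) * w * v = x * (R * o * (w * v))
    group
  · intro v
    show g * R⁻¹ * (R * v) = g * v
    group
  · intro v
    show w * (g * R⁻¹) * v = w * (g * R⁻¹ * v)
    group

theorem stage_of_typeU {x w R o g : H} (T : TypeU x w R g) :
    StageU (lm hinv x) (lm hinv (R * o)) (lm hinv (x * (R * o) * w)) (lm hinv (g * R⁻¹)) := by
  obtain ⟨rfl, cR, cg, a, b, a', b', hb, hab, h, hb', hab', h', hs⟩ := T
  have cR' : x * R⁻¹ = R⁻¹ * x := by
    calc x * R⁻¹ = R⁻¹ * (R * x) * R⁻¹ := by group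
      _ = R⁻¹ * (x * R) * R⁻¹ := by rw [cR]
      _ = _ := by group
  constructor
  · intro v
    show x * (R * o) * 1 * v = x * (R * o * v)
    group
  · intro v hv
    rw [lm_apply] at hv ⊢
    set v' := R⁻¹ * v with hv'
    have e : v = R * v' := by rw [hv']; group
    have hx : v' < x * v' := by
      rw [hv', ← mul_assoc, cR', mul_assoc]
      exact (lt_iff hinv _ _ R⁻¹).mp hv
    have k1 := (between_up hinv hb' cg hab' h' hx.le).2
    have k2 : x * v' ≤ R * v' := beyond_up hinv hb cR hab h hx.le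
    rw [mul_assoc, ← hv', e]
    rcases hs with hs | hs
    · have := strict_up hinv (Nat.sub_pos_of_lt hs) (root_lem' cR hab h) hx
      have := (lt_iff hinv _ _ x).mp this
      rw [← mul_assoc x (x⁻¹ * R), mul_inv_cancel_left] at this
      exact k1.trans_lt this
    · have := strict_up hinv (Nat.sub_pos_of_lt hs) (root_lem cg hab' h') hx
      have := (lt_iff hinv _ _ g).mp this
      rw [← mul_assoc g (g⁻¹ * x), mul_inv_cancel_left] at this
      exact this.trans_le k2
  · intro v hv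
    rw [lm_apply] at hv ⊢
    set v' := R⁻¹ * v with hv'
    have e : v = R * v' := by rw [hv']; group
    have hx : x * v' < v' := by
      rw [hv', ← mul_assoc, cR', mul_assoc]
      exact (lt_iff hinv _ _ R⁻¹).mp hv
    have k1 := (between_dn hinv hb' cg hab' h' hx.le).1
    have k2 : R * v' ≤ x * v' := beyond_dn hinv hb cR hab h hx.le
    rw [mul_assoc, ← hv', e]
    rcases hs with hs | hs
    · have := strict_dn hinv (Nat.sub_pos_of_lt hs) (root_lem' cR hab h) hx
      have := (lt_iff hinv _ _ x).mp this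
      rw [← mul_assoc x (x⁻¹ * R), mul_inv_cancel_left] at this
      exact this.trans_le k1
    · have := strict_dn hinv (Nat.sub_pos_of_lt hs) (root_lem cg hab' h') hx
      have := (lt_iff hinv _ _ g).mp this
      rw [← mul_assoc g (g⁻¹ * x), mul_inv_cancel_left] at this
      exact k2.trans_lt this
  · intro v hv
    rw [lm_apply] at hv ⊢
    have hx : x = 1 := by simpa using hv
    have hR : R = 1 := by
      refine eq_one_of_pow hinv hb ?_
      rw [← h, hx, one_pow]
    have hg : g = 1 := by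
      refine eq_one_of_pow hinv hb' ?_
      rw [← h', hx, one_pow]
    rw [hR, hg]; simp

theorem stage_of_typeW {x w R o g : H} (T : TypeW x w o g) :
    StageW (lm hinv w) (lm hinv R) (lm hinv o) (lm hinv g) (lm hinv (R * o))
      (lm hinv (x * (R * o) * w)) (lm hinv (g * R⁻¹)) (lm hinv (w * (g * R⁻¹))) := by
  obtain ⟨rfl, co, ⟨a2, b2, hb2, h2⟩, cg, a1, b1, hb1, hab1, h1⟩ := T
  constructor
  · exact fo_of_pow hinv hb2 h2
  · intro v
    show w * (o * v) = o * (w * v)
    rw [← mul_assoc, ← co, mul_assoc]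
  · intro v hv
    exact between_up hinv (v := v) hb1 cg hab1 h1 hv
  · intro v hv
    exact between_dn hinv (v := v) hb1 cg hab1 h1 hv
  · intro v
    show g * (w * v) = w * (g * v)
    rw [← mul_assoc, cg, mul_assoc]
  · intro v
    show R * o * v = R * (o * v)
    group
  · intro v
    show 1 * (R * o) * w * v = R * (w * (o * v))
    calc 1 * (R * o) * w * v = R * (o * w) * v := by group
      _ = R * (w * o) * v := by rw [co]
      _ = _ := by group
  · intro v
    show g * R⁻¹ * (R * v) = g * v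
    group
  · intro v
    show w * (g * R⁻¹) * v = w * (g * R⁻¹ * v)
    group

/-- One of the four types. -/
def Admissible {H : Type*} [Group H] (x w R o g : H) : Prop :=
  TypeA x w R o g ∨ TypeU x w R g ∨ TypeW x w o g ∨ (x = 1 ∧ w = 1 ∧ g = 1)

theorem pass_of_admissible {x w R o g : H} (T : Admissible x w R o g) :
    Pass (lm hinv (R * o)) (lm hinv (x * (R * o) * w)) (lm hinv (g * R⁻¹))
      (lm hinv (w * (g * R⁻¹))) := by
  rcases T with T | T | T | ⟨rfl, rfl, rfl⟩
  · exact (stage_of_typeA hinv T).pass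
  · have h := (stage_of_typeU hinv (o := o) T).pass
    rw [T.1] at h ⊢
    rwa [one_mul]
  · exact (stage_of_typeW hinv T).pass
  · rw [one_mul, mul_one, one_mul, one_mul]
    exact Pass.refl _ _

theorem lm_one_iff {a : H} (h : ∀ t, lm hinv a t = t) : a = 1 := by
  have := h 1
  rwa [lm_apply, mul_one] at this

include hinv in
/-- In a left-ordered group the relations of an open chain force triviality. -/
theorem open_trivial {N : ℕ} (hN : 1 ≤ N) {x w R o g : ZMod N → H}
    (relZ : ∀ i, R (i + 1) * o (i + 1) = x i * (R i * o i) * w i)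
    (relU : ∀ i, w (i + 1) * (g (i + 1) * (R (i + 1))⁻¹) = g i * (R i)⁻¹)
    (hR0 : R 0 = 1) (hg0 : g 0 = 1) (ho : ∃ a b : ℕ, 0 < b ∧ (w 0) ^ a = (o 0) ^ b)
    (hst : ∀ i, i ≠ 0 → Admissible (x i) (w i) (R i) (o i) (g i)) (i : ZMod N) :
    x i = 1 ∧ w i = 1 ∧ R i = 1 ∧ o i = 1 ∧ g i = 1 := by
  have : NeZero N := ⟨by omega⟩
  have hU : ∀ i, w i * (g i * (R i)⁻¹) = g (i - 1) * (R (i - 1))⁻¹ := by
    intro i
    have := relU (i - 1)
    rwa [sub_add_cancel] at this
  have castN : ((N : ℕ) : ZMod N) = 0 := ZMod.natCast_self N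
  have cast1 : ∀ j : ℕ, 1 ≤ j → (((j - 1 : ℕ)) : ZMod N) = (j : ZMod N) - 1 := by
    intro j hj
    rw [Nat.cast_sub hj, Nat.cast_one]
  obtain ⟨a, b, hb, hab⟩ := ho
  have key := open_chain (N := N) (fun j : ℕ => lm hinv (R (j : ZMod N) * o (j : ZMod N)))
    (fun j : ℕ => lm hinv (g (j : ZMod N) * (R (j : ZMod N))⁻¹)) (by
      intro j h1 h2
      have hj : (j : ZMod N) ≠ 0 := by
        rw [Ne, ZMod.natCast_eq_zero_iff]
        intro hd
        exact absurd (Nat.le_of_dvd h1 hd) (not_le.mpr h2)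
      have := pass_of_admissible hinv (hst _ hj)
      rw [← relZ, hU] at this
      simp only [cast1 j h1, Nat.cast_add, Nat.cast_one]
      exact this) hN (by
      intro t
      simp only [Nat.cast_zero, hR0, hg0]
      rw [lm_apply]; simp) (by
      simp only [cast1 N hN, castN, hR0]
      rw [← hU, hR0, hg0, one_mul, inv_one, mul_one, one_mul]
      exact fo_of_pow hinv hb hab)
  obtain ⟨kz, ku⟩ := key
  have hz : ∀ i : ZMod N, R i * o i = 1 := by
    intro i
    rcases Nat.eq_zero_or_pos i.val with h | h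
    · have : i = 0 := by rw [← ZMod.natCast_zmod_val i, h, Nat.cast_zero]
      rw [this, ← castN]
      exact lm_one_iff hinv (kz N hN le_rfl)
    · have := lm_one_iff hinv (kz i.val h (ZMod.val_lt i).le)
      rwa [ZMod.natCast_zmod_val] at this
  have hu : ∀ i : ZMod N, g i * (R i)⁻¹ = 1 := by
    intro i
    have := lm_one_iff hinv (ku i.val (ZMod.val_lt i))
    rwa [ZMod.natCast_zmod_val] at this
  have hw : ∀ i, w i = 1 := by
    intro i
    have := hU i
    rwa [hu, hu, mul_one] at this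
  have hx : ∀ i, x i = 1 := by
    intro i
    have := relZ i
    rw [hz, hz, hw, mul_one, mul_one] at this
    exact this.symm
  refine ⟨hx i, hw i, ?_⟩
  by_cases hi : i = 0
  · subst hi
    refine ⟨hR0, ?_, hg0⟩
    have := hz 0
    rwa [hR0, one_mul] at this
  · have e1 := hz i
    have e2 := hu i
    rcases hst i hi with T | T | T | T
    · obtain ⟨-, ⟨a, b, hb, -, h⟩, -⟩ := T
      have hR : R i = 1 := eq_one_of_pow hinv hb (by rw [← h, hx, one_pow])
      rw [hR, one_mul] at e1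
      rw [hR, inv_one, mul_one] at e2
      exact ⟨hR, e1, e2⟩
    · obtain ⟨-, -, -, a, b, a', b', hb, -, h, -⟩ := T
      have hR : R i = 1 := eq_one_of_pow hinv hb (by rw [← h, hx, one_pow])
      rw [hR, one_mul] at e1
      rw [hR, inv_one, mul_one] at e2
      exact ⟨hR, e1, e2⟩
    · obtain ⟨-, -, ⟨a, b, hb, h⟩, -⟩ := T
      have ho : o i = 1 := eq_one_of_pow hinv hb (by rw [← h, hw, one_pow])
      rw [ho, mul_one] at e1
      rw [e1, inv_one, mul_one] at e2
      exact ⟨e1, ho, e2⟩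
    · have hg := T.2.2
      rw [hg, one_mul, inv_eq_one] at e2
      rw [e2, one_mul] at e1
      exact ⟨e2, e1, hg⟩

end Pool.Agent.K7.H39.PC
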