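import Pool.Agent.K7.H39.PC.Group

set_option autoImplicit false

/-!
# Open chains of rational pretzel pieces

The properties of a stage that are needed for open chains are listed in the structure `Pass`.  They
hold for the stages of `Stage`, for the stages with `w = 1` (twists along the curve `u`), for the
stages with `x = 1` (twists along the curve `u z`) and for the trivial stage.
-/

namespace Pool.Agent.K7.H39.PC

variable {Ω : Type*} [LinearOrder Ω]

/-- The properties of a stage. -/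
structure Pass (z z' u u' : Ω ≃o Ω) : Prop where
  neg : ∀ t, INeg u (z' t) t → INeg u' (z t) t
  pos : ∀ t, IPos u (z' t) t → IPos u' (z t) t
  a1 : ∀ t, z t ≤ t → t < u (z t) → IPos u' (z t) t
  a2 : ∀ t, t ≤ z t → u (z t) < t → INeg u' (z t) t
  b1 : ∀ t, z t ≤ t → t < z' t → u (z t) ≤ t → INeg u' (z t) t ∨ IPos u' (z t) t
  b2 : ∀ t, t ≤ z t → z' t < t → t ≤ u (z t) → INeg u' (z t) t ∨ IPos u' (z t) t
  e1 : ∀ t, t < z t → z' t = t → t ≤ u (z t) → INeg u' (z t) t ∨ IPos u' (z t) t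
  e2 : ∀ t, z t < t → z' t = t → u (z t) ≤ t → INeg u' (z t) t ∨ IPos u' (z t) t

/-- Half of the properties. -/
structure HPass (z z' u u' : Ω ≃o Ω) : Prop where
  neg : ∀ t, INeg u (z' t) t → INeg u' (z t) t
  a1 : ∀ t, z t ≤ t → t < u (z t) → IPos u' (z t) t
  b1 : ∀ t, z t ≤ t → t < z' t → u (z t) ≤ t → INeg u' (z t) t ∨ IPos u' (z t) t
  e1 : ∀ t, t < z t → z' t = t → t ≤ u (z t) → INeg u' (z t) t ∨ IPos u' (z t) t

theorem Pass.of_half {z z' u u' : Ω ≃o Ω} (h : HPass z z' u u')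
    (h' : HPass (Ω := Ωᵒᵈ) z.dual z'.dual u.dual u'.dual) : Pass z z' u u' where
  neg := h.neg
  pos := fun t ht => IPos.of_dual (h'.neg t ht.dual)
  a1 := h.a1
  a2 := fun t h1 h2 => INeg.of_dual (h'.a1 t h1 h2)
  b1 := h.b1
  b2 := fun t h1 h2 h3 => (h'.b1 t h1 h2 h3).symm.imp INeg.of_dual IPos.of_dual
  e1 := h.e1
  e2 := fun t h1 h2 h3 => (h'.e1 t h1 h2 h3).symm.imp INeg.of_dual IPos.of_dual

/-- `z t > t = z' t` leads to `INeg` or `IPos`. -/
theorem Stage.lemE {x w R r o g z z' u u' : Ω ≃o Ω} (S : Stage x w R r o g z z' u u') {t : Ω}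
    (h1 : t < z t) (h2 : z' t = t) (hy : t ≤ u (z t)) :
    INeg u' (z t) t ∨ IPos u' (z t) t := by
  rcases hy.eq_or_lt with hy | hy
  · rcases S.lemC h1 hy.symm with h | h
    · exact Or.inl h
    · exfalso
      have := h.1
      rw [h2] at this
      exact absurd h1 (not_lt.mpr this.le)
  · right
    have hzt : z t = R (o t) := S.hz t
    have hz't : z' t = R (x (w (o t))) := S.hz' t
    have huz : u (z t) = g (o t) := by rw [hzt, S.hu]
    set q := o t with hq
    have hy' : t < g q := by rw [← huz]; exact hy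
    have k1 : x (w q) ≤ q := by
      rw [← R.le_iff_le, ← hz't, ← hzt, h2]; exact h1.le
    have k2 : g q ≤ q := (S.gdn q k1).2
    have k3 : t < w t := by
      by_contra k3
      rw [not_lt] at k3
      exact absurd (S.fw.down t k3) (not_le.mpr (hy'.trans_le k2))
    have hseg : ∀ v, t ≤ v → v ≤ q → v < w v := fun v a b => seg_up S.fw k3 a b
    have k4 : q < w q := hseg q (S.fw.up t k3.le) le_rfl
    have k5 : x (w q) < w q := k1.trans_lt k4
    have k6 : x (x (w q)) < x (w q) := x.lt_iff_lt.mpr k5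
    have k7 : t < x (w q) := by
      have a1 : R (x (w q)) ≤ x (x (w q)) := S.R_le k6.le
      have a2 : R (x (w q)) = t := by rw [← hz't]; exact h2
      calc t = R (x (w q)) := a2.symm
        _ ≤ x (x (w q)) := a1
        _ < _ := k6
    have key : ∀ v, x (w q) ≤ v → v ≤ q → R v < g v := by
      intro v a b
      have b1 : x v < v := dn_seg x k5 a (b.trans k4.le)
      have b2 : v < w v := hseg v (k7.le.trans a) b
      have b3 : R v ≤ x v := S.R_le b1.le
      rcases le_total v (x (w v)) with c | c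
      · exact (b3.trans_lt b1).trans_le (S.gup v c).1
      · exact (b3.trans_lt (x.lt_iff_lt.mpr b2)).trans_le (S.gdn v c).1
    have hup : ∀ v, t ≤ v → v ≤ z t → v < u' v := by
      intro v v1 v2
      have := key (R.symm v) (by
        rw [← R.le_iff_le, OrderIso.apply_symm_apply, ← hz't, h2]; exact v1) (by
        rw [← R.le_iff_le, OrderIso.apply_symm_apply, ← hzt]; exact v2)
      rw [OrderIso.apply_symm_apply, ← S.hu_symm] at this
      have c1 : u v ≤ q := (u.le_iff_le.mpr v2).trans (by rw [huz]; exact k2)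
      rw [S.hu']
      exact this.trans (hseg _ (v1.trans this.le) c1)
    refine ⟨h1.trans (hup _ h1.le le_rfl), ?_⟩
    rintro v (⟨a, b⟩ | ⟨a, b⟩)
    · exact hup v a b
    · exact absurd (a.trans b) (not_le.mpr h1)

theorem Stage.half {x w R r o g z z' u u' : Ω ≃o Ω} (S : Stage x w R r o g z z' u u') :
    HPass z z' u u' where
  neg := fun _ h => (S.neg h).2
  a1 := fun _ h1 h2 => S.lemA h1 h2
  b1 := fun _ h1 h2 h3 => S.lemB h1 h2 h3
  e1 := fun _ h1 h2 h3 => S.lemE h1 h2 h3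

theorem Stage.pass {x w R r o g z z' u u' : Ω ≃o Ω} (S : Stage x w R r o g z z' u u') :
    Pass z z' u u' :=
  Pass.of_half S.half (Stage.half (Ω := Ωᵒᵈ) S.dual)

theorem ipos_of {u : Ω ≃o Ω} {s t : Ω} (h1 : s ≤ t) (h2 : t < u s) : IPos u s t := by
  refine ⟨h2, ?_⟩
  rintro v (⟨v1, v2⟩ | ⟨v1, v2⟩)
  · exact up_seg u (α := s) (h1.trans_lt h2) (h1.trans v1) ((v2.trans h1).trans h2.le)
  · exact up_seg u (α := s) (h1.trans_lt h2) v1 (v2.trans h2.le)

/-- A stage with `w = 1`: `z' = x z`, and `u` is a negative power of `x`. -/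
structure StageU (x z z' u : Ω ≃o Ω) : Prop where
  hz' : ∀ v, z' v = x (z v)
  dn : ∀ v, v < x v → u v < v
  up : ∀ v, x v < v → v < u v
  fix : ∀ v, x v = v → u v = v

theorem StageU.dual {x z z' u : Ω ≃o Ω} (S : StageU x z z' u) :
    StageU (Ω := Ωᵒᵈ) x.dual z.dual z'.dual u.dual :=
  ⟨fun v => S.hz' v, fun v hv => S.up v hv, fun v hv => S.dn v hv, fun v hv => S.fix v hv⟩

theorem StageU.x_up {x z z' u : Ω ≃o Ω} (S : StageU x z z' u) {v : Ω} (h : u v < v) :
    v < x v := by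
  rcases lt_trichotomy v (x v) with h1 | h1 | h1
  · exact h1
  · exact absurd (S.fix v h1.symm) h.ne
  · exact absurd (S.up v h1) (not_lt.mpr h.le)

theorem StageU.half {x z z' u : Ω ≃o Ω} (S : StageU x z z' u) : HPass z z' u u where
  neg := by
    intro t h
    have h1 : z' t < x (z' t) := S.x_up
      (h.2 _ ((le_total t (z' t)).imp (fun h => ⟨h, le_rfl⟩) (fun h => ⟨le_rfl, h⟩)))
    have h2 : z t < z' t := by
      rw [S.hz'] at h1 ⊢; exact x.lt_iff_lt.mp h1
    refine ⟨(u.lt_iff_lt.mpr h2).trans h.1, ?_⟩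
    rintro v (⟨v1, v2⟩ | ⟨v1, v2⟩)
    · exact h.2 v (Or.inl ⟨v1, v2.trans h2.le⟩)
    · rcases le_or_gt (z' t) v with v3 | v3
      · exact h.2 v (Or.inr ⟨v3, v2⟩)
      · rw [S.hz'] at h2 v3
        exact S.dn v (up_seg x h2 v1 v3.le)
  a1 := fun t h1 h2 => ipos_of h1 h2
  b1 := by
    intro t h1 h2 _
    left
    rw [S.hz'] at h2
    have hx : z t < x (z t) := h1.trans_lt h2
    refine ⟨(S.dn _ hx).trans_le h1, ?_⟩
    rintro v (⟨v1, v2⟩ | ⟨v1, v2⟩)
    · exact S.dn v (up_seg x hx (h1.trans v1) ((v2.trans h1).trans h2.le))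
    · exact S.dn v (up_seg x hx v1 (v2.trans h2.le))
  e1 := by
    intro t h1 h2 _
    right
    rw [S.hz'] at h2
    have hx : x (z t) < z t := by rw [h2]; exact h1
    refine ⟨h1.trans (S.up _ hx), ?_⟩
    rintro v (⟨v1, v2⟩ | ⟨v1, v2⟩)
    · exact S.up v (dn_seg x hx (by rw [h2]; exact v1) v2)
    · exact absurd (v1.trans v2) (not_le.mpr h1)

theorem StageU.pass {x z z' u : Ω ≃o Ω} (S : StageU x z z' u) : Pass z z' u u :=
  Pass.of_half S.half (StageU.half (Ω := Ωᵒᵈ) S.dual)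

/-- A stage with `x = 1`. -/
structure StageW (w R o g z z' u u' : Ω ≃o Ω) : Prop where
  fw : Fo w o
  wo : ∀ v, w (o v) = o (w v)
  gup : ∀ v, v ≤ w v → v ≤ g v ∧ g v ≤ w v
  gdn : ∀ v, w v ≤ v → w v ≤ g v ∧ g v ≤ v
  gh : ∀ v, g (w v) = w (g v)
  hz : ∀ v, z v = R (o v)
  hz' : ∀ v, z' v = R (w (o v))
  hu : ∀ v, u (R v) = g v
  hu' : ∀ v, u' v = w (u v)

theorem StageW.dual {w R o g z z' u u' : Ω ≃o Ω} (S : StageW w R o g z z' u u') :
    StageW (Ω := Ωᵒᵈ) w.dual R.dual o.dual g.dual z.dual z'.dual u.dual u'.dual where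
  fw := S.fw.dual
  wo := fun v => S.wo v
  gup := fun v hv => ⟨(S.gdn v hv).2, (S.gdn v hv).1⟩
  gdn := fun v hv => ⟨(S.gup v hv).2, (S.gup v hv).1⟩
  gh := fun v => S.gh v
  hz := fun v => S.hz v
  hz' := fun v => S.hz' v
  hu := fun v => S.hu v
  hu' := fun v => S.hu' v

theorem StageW.half {w R o g z z' u u' : Ω ≃o Ω} (S : StageW w R o g z z' u u') :
    HPass z z' u u' where
  neg := by
    intro t h
    obtain ⟨ha, hb⟩ := h
    have hz't : z' t = R (w (o t)) := S.hz' t
    have hzt : z t = R (o t) := S.hz t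
    set q := o t with hq
    rw [hz't, S.hu] at ha
    have hJ : ∀ v, (w q ≤ v ∧ R v ≤ t) ∨ (t ≤ R v ∧ v ≤ w q) → g v < R v := by
      intro v hv
      have := hb (R v) (by
        rw [hz't]
        rcases hv with ⟨h1, h2⟩ | ⟨h1, h2⟩
        · exact Or.inr ⟨R.le_iff_le.mpr h1, h2⟩
        · exact Or.inl ⟨h1, R.le_iff_le.mpr h2⟩)
      rwa [S.hu] at this
    have hw : w t < t := by
      by_contra hw
      rw [not_lt] at hw
      have h1 : t ≤ w q := by
        rw [hq, S.wo]; exact hw.trans (S.fw.up _ (w.le_iff_le.mpr hw))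
      have h2 : w q ≤ w (w q) := by
        apply w.le_iff_le.mpr
        rw [hq, S.wo]; exact o.le_iff_le.mpr hw
      exact absurd ha (not_lt.mpr (h1.trans (S.gup _ h2).1))
    have hqt : q ≤ t := S.fw.down t hw.le
    have hwq : w q < q := by rw [hq, S.wo]; exact o.lt_iff_lt.mpr hw
    have hseg : ∀ v, w q ≤ v → v ≤ t → w v < v := by
      intro v h1 h2
      rcases le_or_gt q v with h3 | h3
      · exact seg_dn S.fw hw h3 h2
      · exact dn_seg w hwq h1 h3.le
    have hN1 : w (g q) < t := by rw [← S.gh]; exact ha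
    have key : ∀ v, (q ≤ v ∧ R v ≤ t) ∨ (t ≤ R v ∧ v ≤ q) → w (g v) < R v := by
      rintro v (⟨h1, h2⟩ | ⟨h1, h2⟩)
      · have h4 : g v < R v := hJ v (Or.inl ⟨hwq.le.trans h1, h2⟩)
        have h5 : w q ≤ g v := (S.gdn q hwq.le).1.trans (g.le_iff_le.mpr h1)
        exact (hseg _ h5 (h4.le.trans h2)).trans h4
      · exact ((w.le_iff_le.mpr (g.le_iff_le.mpr h2)).trans_lt hN1).trans_le h1
    refine ⟨?_, ?_⟩
    · rw [S.hu', hzt, S.hu]; exact hN1
    · intro v hv
      have hv' := key (R.symm v) (by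
        rw [OrderIso.apply_symm_apply]
        rcases hv with ⟨h1, h2⟩ | ⟨h1, h2⟩
        · refine Or.inr ⟨h1, ?_⟩
          rw [← R.le_iff_le, OrderIso.apply_symm_apply, ← hzt]; exact h2
        · refine Or.inl ⟨?_, h2⟩
          rw [← R.le_iff_le, OrderIso.apply_symm_apply, ← hzt]; exact h1)
      rw [OrderIso.apply_symm_apply, ← S.hu, OrderIso.apply_symm_apply] at hv'
      rw [S.hu']; exact hv'
  a1 := by
    intro t h1 h2
    rw [S.hz, S.hu] at h2
    have hw : t < w t := by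
      by_contra hw
      rw [not_lt] at hw
      have k1 : o t ≤ t := S.fw.down t hw
      have k2 : w (o t) ≤ o t := by rw [S.wo]; exact o.le_iff_le.mpr hw
      exact absurd h2 (not_lt.mpr ((S.gdn _ k2).2.trans k1))
    refine ipos_of h1 ?_
    rw [S.hu', S.hz, S.hu]
    exact hw.trans (w.lt_iff_lt.mpr h2)
  b1 := by
    intro t h1 h2 h3
    right
    rw [S.hz, S.hu] at h3
    have k1 : o t < w (o t) := by
      rw [← R.lt_iff_lt, ← S.hz', ← S.hz]; exact h1.trans_lt h2
    have k2 : t < w t := by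
      rw [← o.lt_iff_lt, ← S.wo]; exact k1
    have k3 : t ≤ g (o t) := (S.fw.up t k2.le).trans (S.gup _ k1.le).1
    refine ipos_of h1 ?_
    rw [S.hu', S.hz, S.hu]
    exact k2.trans_le (w.le_iff_le.mpr k3)
  e1 := by
    intro t h1 h2 _
    left
    have k1 : w (o t) < o t := by
      rw [← R.lt_iff_lt, ← S.hz', ← S.hz, h2]; exact h1
    have k2 : w t < t := by
      rw [← o.lt_iff_lt, ← S.wo]; exact k1
    have k3 : g (o t) ≤ t := (S.gdn _ k1.le).2.trans (S.fw.down t k2.le)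
    have k4 : u' (z t) < t := by
      rw [S.hu', S.hz, S.hu]
      exact (w.le_iff_le.mpr k3).trans_lt k2
    refine ⟨k4, ?_⟩
    rintro v (⟨v1, v2⟩ | ⟨v1, v2⟩)
    · exact ((u'.le_iff_le.mpr v2).trans_lt k4).trans_le v1
    · exact absurd (v1.trans v2) (not_le.mpr h1)

theorem StageW.pass {w R o g z z' u u' : Ω ≃o Ω} (S : StageW w R o g z z' u u') :
    Pass z z' u u' :=
  Pass.of_half S.half (StageW.half (Ω := Ωᵒᵈ) S.dual)

theorem Pass.refl (z u : Ω ≃o Ω) : Pass z z u u := by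
  have h : ∀ (Ω : Type _) [LinearOrder Ω] (z u : Ω ≃o Ω), HPass z z u u := by
    intro Ω _ z u
    refine ⟨fun _ h => h, fun t h1 h2 => ipos_of h1 h2, ?_, ?_⟩
    · intro t h1 h2 _
      exact absurd h2 (not_lt.mpr h1)
    · intro t h1 h2 _
      exact absurd h2 h1.ne'
  exact Pass.of_half (h _ z u) (h _ z.dual u.dual)

/-- An open chain of stages: `u 0` is the identity, and `z N` is a nonnegative power of
`w = u' = u (N - 1)`. -/
theorem open_chain {N : ℕ} (z u : ℕ → Ω ≃o Ω)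
    (hst : ∀ j, 1 ≤ j → j < N → Pass (z j) (z (j + 1)) (u j) (u (j - 1)))
    (hN : 1 ≤ N) (hu0 : ∀ t, u 0 t = t) (hend : Fo (u (N - 1)) (z N)) :
    (∀ j, 1 ≤ j → j ≤ N → ∀ t, z j t = t) ∧ (∀ j, j < N → ∀ t, u j t = t) := by
  have no : ∀ j, 1 ≤ j → j ≤ N → ∀ t,
      ¬ INeg (u (j - 1)) (z j t) t ∧ ¬ IPos (u (j - 1)) (z j t) t := by
    intro j h1
    induction j, h1 using Nat.le_induction with
    | base =>
      intro _ t
      have hu0' : u (1 - 1) t = t := hu0 t
      constructor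
      · intro h
        have := h.2 t ((le_total t (z 1 t)).imp (fun h => ⟨le_rfl, h⟩) (fun h => ⟨h, le_rfl⟩))
        exact absurd hu0' this.ne
      · intro h
        have := h.2 t ((le_total t (z 1 t)).imp (fun h => ⟨le_rfl, h⟩) (fun h => ⟨h, le_rfl⟩))
        exact absurd hu0' this.ne'
    | succ j h1 ih =>
      intro h2 t
      have S := hst j h1 h2
      rw [Nat.add_sub_cancel]
      exact ⟨fun h => (ih (by omega) t).1 (S.neg t h), fun h => (ih (by omega) t).2 (S.pos t h)⟩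
  have a1 : ∀ j, 1 ≤ j → j < N → ∀ t, z j t ≤ t → u j (z j t) ≤ t := by
    intro j h1 h2 t h
    by_contra hc
    exact (no j h1 h2.le t).2 ((hst j h1 h2).a1 t h (not_le.mp hc))
  have a2 : ∀ j, 1 ≤ j → j < N → ∀ t, t ≤ z j t → t ≤ u j (z j t) := by
    intro j h1 h2 t h
    by_contra hc
    exact (no j h1 h2.le t).1 ((hst j h1 h2).a2 t h (not_le.mp hc))
  have b1 : ∀ j, 1 ≤ j → j < N → ∀ t, z j t ≤ t → z (j + 1) t ≤ t := by
    intro j h1 h2 t h
    by_contra hc
    rcases (hst j h1 h2).b1 t h (not_le.mp hc) (a1 j h1 h2 t h) with h3 | h3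
    · exact (no j h1 h2.le t).1 h3
    · exact (no j h1 h2.le t).2 h3
  have b2 : ∀ j, 1 ≤ j → j < N → ∀ t, t ≤ z j t → t ≤ z (j + 1) t := by
    intro j h1 h2 t h
    by_contra hc
    rcases (hst j h1 h2).b2 t h (not_le.mp hc) (a2 j h1 h2 t h) with h3 | h3
    · exact (no j h1 h2.le t).1 h3
    · exact (no j h1 h2.le t).2 h3
  have e1 : ∀ j, 1 ≤ j → j < N → ∀ t, t < z j t → t < z (j + 1) t := by
    intro j h1 h2 t h
    refine lt_of_le_of_ne (b2 j h1 h2 t h.le) ?_
    intro hc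
    rcases (hst j h1 h2).e1 t h hc.symm (a2 j h1 h2 t h.le) with h3 | h3
    · exact (no j h1 h2.le t).1 h3
    · exact (no j h1 h2.le t).2 h3
  have e2 : ∀ j, 1 ≤ j → j < N → ∀ t, z j t < t → z (j + 1) t < t := by
    intro j h1 h2 t h
    refine lt_of_le_of_ne (b1 j h1 h2 t h.le) ?_
    intro hc
    rcases (hst j h1 h2).e2 t h hc (a1 j h1 h2 t h.le) with h3 | h3
    · exact (no j h1 h2.le t).1 h3
    · exact (no j h1 h2.le t).2 h3
  -- the end
  have end1 : ∀ t, ¬ t < z N t := by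
    intro t h
    have h1 : t < u (N - 1) t := by
      by_contra hc
      exact absurd (hend.down t (not_lt.mp hc)) (not_le.mpr h)
    refine (no N hN le_rfl t).2 ⟨?_, ?_⟩
    · exact h1.trans_le ((u (N - 1)).le_iff_le.mpr h.le)
    · rintro v (⟨v1, v2⟩ | ⟨v1, v2⟩)
      · exact seg_up hend h1 v1 v2
      · exact absurd (v1.trans v2) (not_le.mpr h)
  have end2 : ∀ t, ¬ z N t < t := by
    intro t h
    have h1 : u (N - 1) t < t := by
      by_contra hc
      exact absurd (hend.up t (not_lt.mp hc)) (not_le.mpr h)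
    refine (no N hN le_rfl t).1 ⟨?_, ?_⟩
    · exact ((u (N - 1)).le_iff_le.mpr h.le).trans_lt h1
    · rintro v (⟨v1, v2⟩ | ⟨v1, v2⟩)
      · exact absurd (v1.trans v2) (not_le.mpr h)
      · exact seg_dn hend h1 v1 v2
  have prop1 : ∀ t, t < z 1 t → ∀ j, 1 ≤ j → j ≤ N → t < z j t := by
    intro t h j h1
    induction j, h1 using Nat.le_induction with
    | base => exact fun _ => h
    | succ j h1 ih => exact fun h2 => e1 j h1 h2 t (ih (by omega))
  have prop2 : ∀ t, z 1 t < t → ∀ j, 1 ≤ j → j ≤ N → z j t < t := by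
    intro t h j h1
    induction j, h1 using Nat.le_induction with
    | base => exact fun _ => h
    | succ j h1 ih => exact fun h2 => e2 j h1 h2 t (ih (by omega))
  have z1 : ∀ t, z 1 t = t := by
    intro t
    rcases lt_trichotomy (z 1 t) t with h | h | h
    · exact absurd (prop2 t h N hN le_rfl) (end2 t)
    · exact h
    · exact absurd (prop1 t h N hN le_rfl) (end1 t)
  have hz : ∀ j, 1 ≤ j → j ≤ N → ∀ t, z j t = t := by
    intro j h1
    induction j, h1 using Nat.le_induction with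
    | base => exact fun _ => z1
    | succ j h1 ih =>
      intro h2 t
      have := ih (by omega) t
      exact le_antisymm (b1 j h1 h2 t this.le) (b2 j h1 h2 t this.ge)
  refine ⟨hz, ?_⟩
  intro j hj t
  rcases Nat.eq_zero_or_pos j with rfl | hj0
  · exact hu0 t
  · have h := hz j hj0 hj.le t
    have h1 := a1 j hj0 hj t h.le
    have h2 := a2 j hj0 hj t h.ge
    rw [h] at h1 h2
    exact le_antisymm h1 h2

end Pool.Agent.K7.H39.PC
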