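import Mathlib.Order.Hom.Basic
import Mathlib.Order.OrderDual
import Mathlib.Tactic

set_option autoImplicit false

/-!
# One stage of a cyclic chain of rational pretzel pieces

`x, w` are order automorphisms of a linear order, `R` is a power of `x` with exponent at least `1`,
`o` a power of `w` with exponent at least `0`, and `g` a power of `h = x w` with an exponent
between `0` and `1`.  Then `z = R o`, `z' = x z w`, `u = g R⁻¹` and `u' = w u`.
The properties that are used are listed in the structure `Stage`.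
-/

namespace Pool.Agent.K7.H39.PC

variable {Ω : Type*} [LinearOrder Ω]

/-- `f` moves no point down which `g` does not move down, and no point up which `g` does not
move up. -/
structure Fo (g f : Ω ≃o Ω) : Prop where
  up : ∀ v, v ≤ g v → v ≤ f v
  down : ∀ v, g v ≤ v → f v ≤ v

theorem Fo.dual {g f : Ω ≃o Ω} (h : Fo g f) : Fo (Ω := Ωᵒᵈ) g.dual f.dual :=
  ⟨fun v hv => h.down v hv, fun v hv => h.up v hv⟩

/-- The relations of one stage. -/
structure Stage (x w R r o g z z' u u' : Ω ≃o Ω) : Prop where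
  fx : Fo x r
  fw : Fo w o
  hR : ∀ v, R v = x (r v)
  wo : ∀ v, w (o v) = o (w v)
  gup : ∀ v, v ≤ x (w v) → v ≤ g v ∧ g v ≤ x (w v)
  gdn : ∀ v, x (w v) ≤ v → x (w v) ≤ g v ∧ g v ≤ v
  gh : ∀ v, g (x (w v)) = x (w (g v))
  hz : ∀ v, z v = R (o v)
  hz' : ∀ v, z' v = R (x (w (o v)))
  hd : ∀ v, z' v = x (z (w v))
  hu : ∀ v, u (R v) = g v
  hu' : ∀ v, u' v = w (u v)

theorem Stage.dual {x w R r o g z z' u u' : Ω ≃o Ω} (S : Stage x w R r o g z z' u u') :
    Stage (Ω := Ωᵒᵈ) x.dual w.dual R.dual r.dual o.dual g.dual z.dual z'.dual u.dual u'.dual where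
  fx := S.fx.dual
  fw := S.fw.dual
  hR := fun v => S.hR v
  wo := fun v => S.wo v
  gup := fun v hv => ⟨(S.gdn v hv).2, (S.gdn v hv).1⟩
  gdn := fun v hv => ⟨(S.gup v hv).2, (S.gup v hv).1⟩
  gh := fun v => S.gh v
  hz := fun v => S.hz v
  hz' := fun v => S.hz' v
  hd := fun v => S.hd v
  hu := fun v => S.hu v
  hu' := fun v => S.hu' v

theorem up_seg (g : Ω ≃o Ω) {α v : Ω} (h : α < g α) (h1 : α ≤ v) (h2 : v ≤ g α) : v < g v := by
  rcases h1.eq_or_lt with rfl | h3
  · exact h
  · exact lt_of_le_of_lt h2 (g.lt_iff_lt.mpr h3)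

theorem dn_seg (g : Ω ≃o Ω) {α v : Ω} (h : g α < α) (h1 : g α ≤ v) (h2 : v ≤ α) : g v < v := by
  rcases h2.eq_or_lt with rfl | h3
  · exact h
  · exact lt_of_lt_of_le (g.lt_iff_lt.mpr h3) h1

theorem seg_up {g G : Ω ≃o Ω} (hF : Fo g G) {α v : Ω} (h : α < g α) (h1 : α ≤ v)
    (h2 : v ≤ G α) : v < g v := by
  rcases h1.eq_or_lt with rfl | h3
  · exact h
  · by_contra hv
    rw [not_lt] at hv
    exact absurd (hF.down v hv) (not_le.mpr (lt_of_le_of_lt h2 (G.lt_iff_lt.mpr h3)))

theorem seg_dn {g G : Ω ≃o Ω} (hF : Fo g G) {α v : Ω} (h : g α < α) (h1 : G α ≤ v)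
    (h2 : v ≤ α) : g v < v := by
  rcases h2.eq_or_lt with rfl | h3
  · exact h
  · by_contra hv
    rw [not_lt] at hv
    exact absurd (hF.up v hv) (not_le.mpr (lt_of_lt_of_le (G.lt_iff_lt.mpr h3) h1))

/-- `g` moves the points between `s` and `t` down, and `s` below `t`. -/
def INeg (g : Ω ≃o Ω) (s t : Ω) : Prop :=
  g s < t ∧ ∀ v, (t ≤ v ∧ v ≤ s) ∨ (s ≤ v ∧ v ≤ t) → g v < v

/-- `g` moves the points between `s` and `t` up, and `s` above `t`. -/
def IPos (g : Ω ≃o Ω) (s t : Ω) : Prop :=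
  t < g s ∧ ∀ v, (t ≤ v ∧ v ≤ s) ∨ (s ≤ v ∧ v ≤ t) → v < g v

theorem INeg.dual {g : Ω ≃o Ω} {s t : Ω} (h : INeg g s t) : IPos (Ω := Ωᵒᵈ) g.dual s t :=
  ⟨h.1, fun v hv => h.2 v (hv.symm.imp (fun h => ⟨h.2, h.1⟩) (fun h => ⟨h.2, h.1⟩))⟩

theorem IPos.dual {g : Ω ≃o Ω} {s t : Ω} (h : IPos g s t) : INeg (Ω := Ωᵒᵈ) g.dual s t :=
  ⟨h.1, fun v hv => h.2 v (hv.symm.imp (fun h => ⟨h.2, h.1⟩) (fun h => ⟨h.2, h.1⟩))⟩

theorem IPos.of_dual {g : Ω ≃o Ω} {s t : Ω} (h : INeg (Ω := Ωᵒᵈ) g.dual s t) : IPos g s t :=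
  ⟨h.1, fun v hv => h.2 v (hv.symm.imp (fun h => ⟨h.2, h.1⟩) (fun h => ⟨h.2, h.1⟩))⟩

theorem INeg.of_dual {g : Ω ≃o Ω} {s t : Ω} (h : IPos (Ω := Ωᵒᵈ) g.dual s t) : INeg g s t :=
  ⟨h.1, fun v hv => h.2 v (hv.symm.imp (fun h => ⟨h.2, h.1⟩) (fun h => ⟨h.2, h.1⟩))⟩

section stage
variable {x w R r o g z z' u u' : Ω ≃o Ω}

theorem Stage.R_le (S : Stage x w R r o g z z' u u') {v : Ω} (h : x v ≤ v) : R v ≤ x v := by
  rw [S.hR]; exact x.le_iff_le.mpr (S.fx.down v h)

theorem Stage.le_R (S : Stage x w R r o g z z' u u') {v : Ω} (h : v ≤ x v) : x v ≤ R v := by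
  rw [S.hR]; exact x.le_iff_le.mpr (S.fx.up v h)

theorem Stage.hu_symm (S : Stage x w R r o g z z' u u') (v : Ω) : u v = g (R.symm v) := by
  rw [← S.hu, OrderIso.apply_symm_apply]

/-- If `g` moves `v` below `R v` and `x` does not move `v` up then `w` moves `v` down. -/
theorem Stage.w_dn (S : Stage x w R r o g z z' u u') {v : Ω} (h : g v < R v) (hx : x v ≤ v) :
    w v < v := by
  have h1 : g v < v := h.trans_le ((S.R_le hx).trans hx)
  have h2 : x (w v) ≤ v := by
    by_contra h2
    exact absurd (S.gup v (not_le.mp h2).le).1 (not_le.mpr h1)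
  have h3 : x (w v) < x (r v) := by
    rw [← S.hR]; exact (S.gdn v h2).1.trans_lt h
  exact (x.lt_iff_lt.mp h3).trans_le (S.fx.down v hx)

/-- The main step downwards. -/
theorem Stage.neg (S : Stage x w R r o g z z' u u') {t : Ω} (h : INeg u (z' t) t) :
    w t < t ∧ INeg u' (z t) t := by
  obtain ⟨ha, hb⟩ := h
  set q := o t with hq
  set τ := x (w q) with hτ
  have hz't : z' t = R τ := S.hz' t
  have hzt : z t = R q := S.hz t
  rw [hz't, S.hu] at ha
  -- the points of the interval
  have hJ : ∀ v, (τ ≤ v ∧ R v ≤ t) ∨ (t ≤ R v ∧ v ≤ τ) → g v < R v := by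
    intro v hv
    have := hb (R v) (by
      rw [hz't]
      rcases hv with ⟨h1, h2⟩ | ⟨h1, h2⟩
      · exact Or.inr ⟨R.le_iff_le.mpr h1, h2⟩
      · exact Or.inl ⟨h1, R.le_iff_le.mpr h2⟩)
    rwa [S.hu] at this
  have hwq : ∀ {a b : Ω}, a ≤ b → w a ≤ w b := fun h => w.le_iff_le.mpr h
  have hw : w t < t := by
    by_contra hw
    rw [not_lt] at hw
    have h1 : t ≤ q := S.fw.up t hw
    have h2 : q ≤ w q := by rw [hq, S.wo]; exact o.le_iff_le.mpr hw
    have h3 : τ < q := by
      by_contra h3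
      rw [not_lt] at h3
      have h4 : q ≤ g q := (S.gup q h3).1
      have h5 : g q ≤ g τ := g.le_iff_le.mpr h3
      exact absurd ha (not_lt.mpr (h1.trans (h4.trans h5)))
    have h4 : x (w q) < w q := h3.trans_le h2
    rcases le_or_gt τ t with h5 | h5
    · have h6 : x t < t := dn_seg x h4 h5 (h1.trans h2)
      have h7 : R t ≤ t := (S.R_le h6.le).trans h6.le
      exact absurd (S.w_dn (hJ t (Or.inl ⟨h5, h7⟩)) h6.le) (not_lt.mpr hw)
    · have h6 : x τ < τ := dn_seg x h4 le_rfl (h3.le.trans h2)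
      have h7 : g τ < R τ := hJ τ (by
        rcases le_total (R τ) t with h | h
        · exact Or.inl ⟨le_rfl, h⟩
        · exact Or.inr ⟨h, le_rfl⟩)
      have h8 : w τ < τ := S.w_dn h7 h6.le
      have h9 : o τ ≤ τ := S.fw.down τ h8.le
      have h10 : q < o τ := o.lt_iff_lt.mpr h5
      exact absurd (h10.trans_le h9) (not_lt.mpr h3.le)
  have hqt : q ≤ t := S.fw.down t hw.le
  have hwq' : w q < q := by rw [hq, S.wo]; exact o.lt_iff_lt.mpr hw
  have hseg : ∀ v, q ≤ v → v ≤ t → w v < v := fun v h1 h2 => seg_dn S.fw hw h1 h2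
  have hN1 : w (g q) < t := by
    by_contra hN
    rw [not_lt] at hN
    have h1 : x (w (g q)) < t := by rw [← S.gh]; exact ha
    have h2 : x t < t := (x.le_iff_le.mpr hN).trans_lt h1
    have h3 : x (w t) ≤ t := ((x.lt_iff_lt.mpr hw).trans h2).le
    have h4 : g t ≤ t := (S.gdn t h3).2
    have h5 : w (g q) ≤ w t := w.le_iff_le.mpr ((g.le_iff_le.mpr hqt).trans h4)
    exact absurd (h5.trans_lt hw) (not_lt.mpr hN)
  -- the points of the new interval
  have key : ∀ v, (q ≤ v ∧ R v ≤ t) ∨ (t ≤ R v ∧ v ≤ q) → w (g v) < R v := by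
    rintro v (⟨h1, h2⟩ | ⟨h1, h2⟩)
    · rcases le_or_gt τ v with h3 | h3
      · have h4 : g v < R v := hJ v (Or.inl ⟨h3, h2⟩)
        rcases le_or_gt q (g v) with h5 | h5
        · exact (hseg _ h5 (h4.le.trans h2)).trans h4
        · have h6 : g q < q := (g.le_iff_le.mpr h1).trans_lt h5
          have h7 : x (w q) ≤ q := by
            by_contra h7
            exact absurd (S.gup q (not_le.mp h7).le).1 (not_le.mpr h6)
          have h8 : τ ≤ g v := (S.gdn q h7).1.trans (g.le_iff_le.mpr h1)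
          have h9 : R (g v) ≤ t := (R.le_iff_le.mpr (h5.le.trans h1)).trans h2
          have h10 : g (g v) < R (g v) := hJ (g v) (Or.inl ⟨h8, h9⟩)
          have h11 : w (g v) < g v := by
            by_contra hc
            rw [not_lt] at hc
            have h12 : g v < x (g v) := by
              by_contra h12
              rw [not_lt] at h12
              exact absurd (S.w_dn h10 h12) (not_lt.mpr hc)
            have h13 : x (w q) < x (w (g v)) :=
              h8.trans_lt (h12.trans_le (x.le_iff_le.mpr hc))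
            have h14 : q < g v := w.lt_iff_lt.mp (x.lt_iff_lt.mp h13)
            exact absurd h14 (not_lt.mpr h5.le)
          exact h11.trans h4
      · have hmono : x (w q) ≤ x (w v) := x.le_iff_le.mpr (w.le_iff_le.mpr h1)
        have h4 : v < x (w v) := h3.trans_le hmono
        have h5 : q ≤ τ := h1.trans h3.le
        have h6 : τ ≤ x (w τ) := x.le_iff_le.mpr (w.le_iff_le.mpr h5)
        have h7 : τ < t := (S.gup τ h6).1.trans_lt ha
        have h8 : w v < v := hseg v h1 (h3.le.trans h7.le)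
        have h9 : x (w v) < x v := x.lt_iff_lt.mpr h8
        have h10 : g v < R v := by
          exact (S.gup v h4.le).2.trans_lt (h9.trans_le (S.le_R (h4.trans h9).le))
        have h11 : q ≤ g v := h1.trans (S.gup v h4.le).1
        exact (hseg _ h11 (h10.le.trans h2)).trans h10
    · exact ((w.le_iff_le.mpr (g.le_iff_le.mpr h2)).trans_lt hN1).trans_le h1
  refine ⟨hw, ?_, ?_⟩
  · rw [S.hu', hzt, S.hu]; exact hN1
  · intro v hv
    have hv' := key (R.symm v) (by
      rw [OrderIso.apply_symm_apply]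
      rcases hv with ⟨h1, h2⟩ | ⟨h1, h2⟩
      · refine Or.inr ⟨h1, ?_⟩
        rw [← R.le_iff_le, OrderIso.apply_symm_apply, ← hzt]; exact h2
      · refine Or.inl ⟨?_, h2⟩
        rw [← R.le_iff_le, OrderIso.apply_symm_apply, ← hzt]; exact h1)
    rw [OrderIso.apply_symm_apply] at hv'
    rw [S.hu', S.hu_symm]; exact hv'

theorem Stage.pos (S : Stage x w R r o g z z' u u') {t : Ω} (h : IPos u (z' t) t) :
    t < w t ∧ IPos u' (z t) t := by
  obtain ⟨h1, h2⟩ := Stage.neg (Ω := Ωᵒᵈ) S.dual (t := t) h.dual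
  exact ⟨h1, IPos.of_dual h2⟩

/-- `z t ≤ t < u z t` leads to `IPos`. -/
theorem Stage.lemA (S : Stage x w R r o g z z' u u') {t : Ω} (h1 : z t ≤ t) (h2 : t < u (z t)) :
    IPos u' (z t) t := by
  have hzt : z t = R (o t) := S.hz t
  have h2' : t < g (o t) := by rw [hzt, S.hu] at h2; exact h2
  have hw : t < w t := by
    by_contra hw
    rw [not_lt] at hw
    have k1 : o t ≤ t := S.fw.down t hw
    have k2 : w (o t) ≤ o t := by rw [S.wo]; exact o.le_iff_le.mpr hw
    have k3 : o t < g (o t) := k1.trans_lt h2'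
    have k4 : o t ≤ x (w (o t)) := by
      by_contra k4
      exact absurd (S.gdn _ (not_le.mp k4).le).2 (not_le.mpr k3)
    have k5 : t < x (w (o t)) := h2'.trans_le (S.gup _ k4).2
    have k6 : x (w (o t)) ≤ x (o t) := x.le_iff_le.mpr k2
    have k7 : x (o t) ≤ R (o t) := S.le_R (k4.trans k6)
    exact absurd h1 (not_le.mpr (by rw [hzt]; exact k5.trans_le (k6.trans k7)))
  have h3 : t < u' (z t) := by
    rw [S.hu']; exact hw.trans (w.lt_iff_lt.mpr h2)
  refine ⟨h3, ?_⟩
  rintro v (⟨v1, v2⟩ | ⟨v1, v2⟩)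
  · exact up_seg u' (α := z t) (h1.trans_lt h3) (h1.trans v1) ((v2.trans h1).trans h3.le)
  · exact up_seg u' (α := z t) (h1.trans_lt h3) v1 (v2.trans h3.le)

/-- `z t ≤ t < z' t` and `u z t ≤ t` lead to `INeg` or `IPos`. -/
theorem Stage.lemB (S : Stage x w R r o g z z' u u') {t : Ω} (h1 : z t ≤ t) (h2 : t < z' t)
    (hy : u (z t) ≤ t) : INeg u' (z t) t ∨ IPos u' (z t) t := by
  have hzt : z t = R (o t) := S.hz t
  have hz't : z' t = R (x (w (o t))) := S.hz' t
  set q := o t with hq
  have hy' : g q ≤ t := by rw [hzt, S.hu] at hy; exact hy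
  have k1 : q < x (w q) := by
    rw [← R.lt_iff_lt, ← hz't, ← hzt]; exact h1.trans_lt h2
  have k2 : q ≤ g q := (S.gup q k1.le).1
  rcases lt_trichotomy (w t) t with hw | hw | hw
  · left
    have hseg : ∀ v, q ≤ v → v ≤ t → w v < v := fun v a b => seg_dn S.fw hw a b
    have hwq : w q < q := hseg q le_rfl (k2.trans hy')
    have hxq : x (w q) < x q := x.lt_iff_lt.mpr hwq
    have key : ∀ v, q ≤ v → R v ≤ t → w (g v) < R v := by
      intro v a b
      have c1 : v < x (w q) := by
        rw [← R.lt_iff_lt, ← hz't]; exact b.trans_lt h2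
      have c2 : v < x v := up_seg x (k1.trans hxq) a (c1.trans hxq).le
      have c3 : x v ≤ R v := S.le_R c2.le
      have c4 : v ≤ t := c2.le.trans (c3.trans b)
      have c5 : x (w v) < x v := x.lt_iff_lt.mpr (hseg v a c4)
      have c6 : v < x (w v) := c1.trans_le (x.le_iff_le.mpr (w.le_iff_le.mpr a))
      have c7 : g v < R v := (S.gup v c6.le).2.trans_lt (c5.trans_le c3)
      have c8 : q ≤ g v := a.trans (S.gup v c6.le).1
      exact (hseg _ c8 (c7.le.trans b)).trans c7
    refine ⟨?_, ?_⟩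
    · rw [S.hu', hzt, S.hu]; exact (hseg _ k2 hy').trans_le hy'
    · intro v hv
      have hv' : z t ≤ v ∧ v ≤ t := by
        rcases hv with ⟨a, b⟩ | h
        · exact ⟨h1.trans a, b.trans h1⟩
        · exact h
      have := key (R.symm v) (by
        rw [← R.le_iff_le, OrderIso.apply_symm_apply, ← hzt]; exact hv'.1) (by
        rw [OrderIso.apply_symm_apply]; exact hv'.2)
      rw [OrderIso.apply_symm_apply] at this
      rw [S.hu', S.hu_symm]; exact this
  · exfalso
    have c1 : q = t := le_antisymm (S.fw.down t hw.le) (S.fw.up t hw.ge)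
    rw [c1, hw] at k1
    have c2 := S.le_R k1.le
    rw [hzt, c1] at h1
    exact absurd (k1.trans_le c2) (not_lt.mpr h1)
  · right
    have c1 : t ≤ q := S.fw.up t hw.le
    have h3 : t < u' (z t) := by
      rw [S.hu', hzt, S.hu]; exact hw.trans_le (w.le_iff_le.mpr (c1.trans k2))
    refine ⟨h3, ?_⟩
    rintro v (⟨v1, v2⟩ | ⟨v1, v2⟩)
    · exact up_seg u' (α := z t) (h1.trans_lt h3) (h1.trans v1) ((v2.trans h1).trans h3.le)
    · exact up_seg u' (α := z t) (h1.trans_lt h3) v1 (v2.trans h3.le)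

/-- `z t > t` and `u z t = t` lead to `INeg` or to a step upwards. -/
theorem Stage.lemC (S : Stage x w R r o g z z' u u') {t : Ω} (h1 : t < z t)
    (hy : u (z t) = t) :
    INeg u' (z t) t ∨ (z t < z' t ∧ ∀ v, t ≤ v → v ≤ z t → u v < v) := by
  have hzt : z t = R (o t) := S.hz t
  have hz't : z' t = R (x (w (o t))) := S.hz' t
  have hy' : g (o t) = t := by rw [hzt, S.hu] at hy; exact hy
  rcases lt_or_ge (w t) t with hw | hw
  · left
    have h3 : u' (z t) < t := by rw [S.hu', hy]; exact hw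
    refine ⟨h3, ?_⟩
    rintro v (⟨v1, v2⟩ | ⟨v1, v2⟩)
    · exact ((u'.le_iff_le.mpr v2).trans_lt h3).trans_le v1
    · exact absurd (v1.trans v2) (not_le.mpr h1)
  · right
    have c1 : t ≤ o t := S.fw.up t hw
    have c2 : o t ≤ w (o t) := by rw [S.wo]; exact o.le_iff_le.mpr hw
    have c3 : o t = t := by
      rcases c1.eq_or_lt with c | c
      · exact c.symm
      · exfalso
        have d1 : g (o t) < o t := by rw [hy']; exact c
        have d2 : x (w (o t)) ≤ o t := by
          by_contra d2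
          exact absurd (S.gup _ (not_le.mp d2).le).1 (not_le.mpr d1)
        have d3 : x (w (o t)) ≤ t := by
          have := (S.gdn _ d2).1
          rwa [hy'] at this
        have d4 : x (o t) ≤ t := (x.le_iff_le.mpr c2).trans d3
        have d5 : R (o t) ≤ x (o t) := S.R_le (d4.trans c1)
        rw [hzt] at h1
        exact absurd h1 (not_lt.mpr (d5.trans d4))
    rw [c3] at hzt hz't hy'
    have e1 : t < x t := by
      by_contra e1
      rw [not_lt] at e1
      rw [hzt] at h1
      exact absurd h1 (not_lt.mpr ((S.R_le e1).trans e1))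
    refine ⟨?_, ?_⟩
    · rw [hzt, hz't, R.lt_iff_lt]
      exact e1.trans_le (x.le_iff_le.mpr hw)
    · intro v v1 v2
      rw [hzt] at v2
      have f1 : R.symm v ≤ t := by
        rw [← R.le_iff_le, OrderIso.apply_symm_apply]; exact v2
      rw [S.hu_symm]
      rcases v1.eq_or_lt with rfl | v1
      · rw [hzt] at h1
        have f2 : R.symm t < t := by
          rw [← R.lt_iff_lt, OrderIso.apply_symm_apply]; exact h1
        calc g (R.symm t) < g t := g.lt_iff_lt.mpr f2
          _ = t := hy'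
      · calc g (R.symm v) ≤ g t := g.le_iff_le.mpr f1
          _ = t := hy'
          _ < v := v1

/-- The step for points below which nothing happens: `m > t` is at most `z t` and `z' t`. -/
theorem Stage.lemD (S : Stage x w R r o g z z' u u') {t m : Ω} (hm : t < m) (h1 : m ≤ z t)
    (h2 : m ≤ z' t) (hy : t < u (z t)) (hu : z' t ≤ z t ∨ ∀ v, m ≤ v → v ≤ z' t → v < u v)
    (hu' : z t < z' t ∨ m = z' t ∨ ∀ v, m ≤ v → v ≤ z' t → v < u v) :
    (∀ v, m ≤ v → v ≤ z t → v < u v) ∧ (∀ v, t ≤ v → v ≤ u (z t) → v < w v) ∧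
      ∀ v, m ≤ v → v ≤ z t → v < u' v := by
  have hzt : z t = R (o t) := S.hz t
  have hz't : z' t = R (x (w (o t))) := S.hz' t
  have huz : u (z t) = g (o t) := by rw [hzt, S.hu]
  set q := o t with hq
  have hy' : t < g q := by rw [← huz]; exact hy
  suffices key : (∀ v, m ≤ v → v ≤ z t → v < u v) ∧ ∀ v, t ≤ v → v ≤ u (z t) → v < w v by
    obtain ⟨p1, p2⟩ := key
    refine ⟨p1, p2, ?_⟩
    intro v v1 v2
    have h3 := p1 v v1 v2
    rw [S.hu']
    exact h3.trans (p2 (u v) ((hm.trans_le v1).trans h3).le (u.le_iff_le.mpr v2))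
  rcases le_or_gt (z' t) (z t) with h3 | h3
  · have k1 : x (w q) ≤ q := by
      rw [← R.le_iff_le, ← hz't, ← hzt]; exact h3
    have k2 : g q ≤ q := (S.gdn q k1).2
    have k3 : t < w t := by
      by_contra k3
      rw [not_lt] at k3
      exact absurd (S.fw.down t k3) (not_le.mpr (hy'.trans_le k2))
    have hseg : ∀ v, t ≤ v → v ≤ q → v < w v := fun v a b => seg_up S.fw k3 a b
    have k4 : q < w q := hseg q (S.fw.up t k3.le) le_rfl
    have k5 : x (w q) < w q := k1.trans_lt k4
    have k6 : x (x (w q)) < x (w q) := x.lt_iff_lt.mpr k5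
    have k7 : t < x (w q) := by
      have a1 : R (x (w q)) ≤ x (x (w q)) := S.R_le k6.le
      have a2 : t < R (x (w q)) := by rw [← hz't]; exact hm.trans_le h2
      exact a2.trans_le (a1.trans k6.le)
    have key : ∀ v, x (w q) ≤ v → v ≤ q → R v < g v := by
      intro v a b
      have b1 : x v < v := dn_seg x k5 a (b.trans k4.le)
      have b2 : v < w v := hseg v (k7.le.trans a) b
      have b3 : R v ≤ x v := S.R_le b1.le
      rcases le_total v (x (w v)) with c | c
      · exact (b3.trans_lt b1).trans_le (S.gup v c).1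
      · exact (b3.trans_lt (x.lt_iff_lt.mpr b2)).trans_le (S.gdn v c).1
    refine ⟨?_, ?_⟩
    · intro v v1 v2
      rcases le_or_gt (z' t) v with v3 | v3
      · have := key (R.symm v) (by
          rw [← R.le_iff_le, OrderIso.apply_symm_apply, ← hz't]; exact v3) (by
          rw [← R.le_iff_le, OrderIso.apply_symm_apply, ← hzt]; exact v2)
        rw [OrderIso.apply_symm_apply] at this
        rw [S.hu_symm]; exact this
      · rcases hu' with h4 | h4 | h4
        · exact absurd h3 (not_le.mpr h4)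
        · rw [← h4] at v3; exact absurd v1 (not_le.mpr v3)
        · exact h4 v v1 v3.le
    · intro v v1 v2
      rw [huz] at v2
      exact hseg v v1 (v2.trans k2)
  · have u1 : ∀ v, m ≤ v → v ≤ z' t → v < u v := by
      rcases hu with h4 | h4
      · exact absurd h4 (not_le.mpr h3)
      · exact h4
    have k1 : q < x (w q) := by
      rw [← R.lt_iff_lt, ← hz't, ← hzt]; exact h3
    have k2 := S.gup q k1.le
    have k3 : t < w t := by
      by_contra k3
      rw [not_lt] at k3
      have a1 : w q ≤ q := by rw [hq, S.wo]; exact o.le_iff_le.mpr k3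
      have a2 : z t < u (z t) := u1 _ h1 h3.le
      rw [huz, hzt] at a2
      have a3 : x (w q) ≤ x q := x.le_iff_le.mpr a1
      have a4 : x q ≤ R q := S.le_R (k1.le.trans a3)
      exact absurd a2 (not_lt.mpr (k2.2.trans (a3.trans a4)))
    refine ⟨fun v v1 v2 => u1 v v1 (v2.trans h3.le), ?_⟩
    intro v v1 v2
    rw [huz] at v2
    rcases le_or_gt v q with v3 | v3
    · exact seg_up S.fw k3 v1 v3
    · by_contra hv
      rw [not_lt] at hv
      have b1 : v ≤ x (w q) := v2.trans k2.2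
      have b2 : v < x (w v) := by
        have : x (w q) < x (w v) := x.lt_iff_lt.mpr (w.lt_iff_lt.mpr v3)
        exact b1.trans_lt this
      have b3 : x (w v) ≤ x v := x.le_iff_le.mpr hv
      have b4 : x v ≤ R v := S.le_R (b2.le.trans b3)
      have b5 : g v ≤ R v := (S.gup v b2.le).2.trans (b3.trans b4)
      have b6 : R v < u (R v) := by
        apply u1
        · rw [hzt] at h1
          exact h1.trans (R.le_iff_le.mpr v3.le)
        · rw [hz't]; exact R.le_iff_le.mpr b1
      rw [S.hu] at b6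
      exact absurd b6 (not_lt.mpr b5)

end stage

end Pool.Agent.K7.H39.PC
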